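import Mathlib

set_option autoImplicit false
open MeasureTheory ProbabilityTheory Matrix

namespace Pool.Agent.H512R3.Khin

/-- configurations: each of the `k` legs is in the vacuum `none` or in one of `N` states. -/
abbrev Dk (k N : ℕ) : Type := Fin k → Option (Fin N)

/-- lowering operator on leg `j` from state `i` to the vacuum. -/
noncomputable def B {k N : ℕ} (p : Fin k × Fin N) : Matrix (Dk k N) (Dk k N) ℝ :=
  fun f f' => if f p.1 = none ∧ f' = Function.update f p.1 (some p.2) then 1 else 0

lemma B_mulVec {k N : ℕ} (p : Fin k × Fin N) (v : Dk k N → ℝ) (f : Dk k N) :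
    (B p *ᵥ v) f = if f p.1 = none then v (Function.update f p.1 (some p.2)) else 0 := by
  classical
  simp only [B, Matrix.mulVec, dotProduct]
  by_cases h : f p.1 = none
  · simp [h]
  · simp [h]

lemma BT_mul_B {k N : ℕ} (p : Fin k × Fin N) :
    (B p)ᵀ * B p = Matrix.diagonal (fun f : Dk k N => if f p.1 = some p.2 then (1 : ℝ) else 0) := by
  classical
  ext f f'
  rw [Matrix.mul_apply]
  simp only [Matrix.transpose_apply, B, Matrix.diagonal_apply]
  by_cases h : f p.1 = some p.2
  · -- only contribution is from g = update f p.1 none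
    rw [Finset.sum_eq_single (Function.update f p.1 none)]
    · by_cases hff : f = f'
      · subst hff
        simp [h]
      · have h1 : ¬ (f' = f) := fun h2 => hff h2.symm
        have h3 : Function.update f p.1 (some p.2) = f := by rw [← h]; simp
        simp [hff, h3, h1]
    · intro g _ hg
      by_cases hg2 : g p.1 = none ∧ f = Function.update g p.1 (some p.2)
      · exfalso
        apply hg
        rw [hg2.2]
        simp [← hg2.1]
      · simp only [hg2, if_false, zero_mul]
    · simp
  · rw [Finset.sum_eq_zero]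
    · by_cases hff : f = f' <;> simp [hff]
      subst hff
      exact h
    · intro g _
      by_cases hg2 : g p.1 = none ∧ f = Function.update g p.1 (some p.2)
      · exfalso
        apply h
        rw [hg2.2]
        simp
      · simp only [hg2, if_false, zero_mul]

lemma B_mul_BT {k N : ℕ} (p : Fin k × Fin N) :
    B p * (B p)ᵀ = Matrix.diagonal (fun f : Dk k N => if f p.1 = none then (1 : ℝ) else 0) := by
  classical
  ext f f'
  rw [Matrix.mul_apply]
  simp only [Matrix.transpose_apply, B, Matrix.diagonal_apply]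
  by_cases h : f p.1 = none
  · rw [Finset.sum_eq_single (Function.update f p.1 (some p.2))]
    · by_cases hff : f = f'
      · subst hff
        simp [h]
      · simp only [hff, if_false, h, true_and, if_true, one_mul]
        rw [if_neg]
        rintro ⟨h1, h2⟩
        apply hff
        have h3 : Function.update (Function.update f p.1 (some p.2)) p.1 none =
          Function.update (Function.update f' p.1 (some p.2)) p.1 none := by rw [h2]
        rw [Function.update_idem, Function.update_idem] at h3
        rw [← h, Function.update_eq_self] at h3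
        rw [h3, h, ← h1, Function.update_eq_self]
    · intro g _ hg
      simp [hg]
    · simp
  · rw [Finset.sum_eq_zero]
    · by_cases hff : f = f' <;> simp [hff]
      subst hff
      exact h
    · intro g _
      simp [h]

/-- bilinear bound for a diagonal matrix. -/
lemma diag_bound {ι : Type*} [Fintype ι] [DecidableEq ι] (c : ι → ℝ) (K : ℝ)
    (h0 : ∀ i, 0 ≤ c i) (hc : ∀ i, c i ≤ K) (v w : ι → ℝ) (hv : v ⬝ᵥ v = 1) (hw : w ⬝ᵥ w = 1) :
    w ⬝ᵥ (Matrix.diagonal c *ᵥ v) ≤ K := by
  have h1 : w ⬝ᵥ (Matrix.diagonal c *ᵥ v) = ∑ i, w i * (c i * v i) := by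
    simp [dotProduct, Matrix.mulVec_diagonal]
  rw [h1]
  have h2 : ∀ i, w i * (c i * v i) ≤ K * ((w i * w i + v i * v i) / 2) := by
    intro i
    have h3 : w i * (c i * v i) = c i * (w i * v i) := by ring
    rw [h3]
    have h4 : w i * v i ≤ (w i * w i + v i * v i) / 2 := by nlinarith [sq_nonneg (w i - v i)]
    have h5 : 0 ≤ (w i * w i + v i * v i) / 2 := by nlinarith [sq_nonneg (w i), sq_nonneg (v i)]
    calc c i * (w i * v i) ≤ c i * ((w i * w i + v i * v i) / 2) :=
          mul_le_mul_of_nonneg_left h4 (h0 i)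
      _ ≤ K * ((w i * w i + v i * v i) / 2) := mul_le_mul_of_nonneg_right (hc i) h5
  calc ∑ i, w i * (c i * v i) ≤ ∑ i, K * ((w i * w i + v i * v i) / 2) :=
        Finset.sum_le_sum fun i _ => h2 i
    _ = K * ((∑ i, w i * w i + ∑ i, v i * v i) / 2) := by
        rw [← Finset.mul_sum, ← Finset.sum_div, Finset.sum_add_distrib]
    _ = K := by
        have h6 : ∑ i, w i * w i = 1 := hw
        have h7 : ∑ i, v i * v i = 1 := hv
        rw [h6, h7]; ring

/-- squared matrix elements sum up to at most `k`. -/
lemma sum_sq_le {k N : ℕ} (v w : Dk k N → ℝ) (hv : v ⬝ᵥ v = 1) (hw : w ⬝ᵥ w = 1) :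
    ∑ p : Fin k × Fin N, (w ⬝ᵥ (B p *ᵥ v)) ^ 2 ≤ k := by
  classical
  rw [Fintype.sum_prod_type]
  have key : ∀ j : Fin k, ∑ i : Fin N, (w ⬝ᵥ (B (j, i) *ᵥ v)) ^ 2 ≤ 1 := by
    intro j
    have h1 : ∀ i : Fin N, (w ⬝ᵥ (B (j, i) *ᵥ v)) ^ 2 ≤
        ∑ f : Dk k N, (if f j = some i then v f * v f else 0) := by
      intro i
      have h2 : w ⬝ᵥ (B (j, i) *ᵥ v) =
          ∑ f : Dk k N, w f * (if f j = none then v (Function.update f j (some i)) else 0) := by
        simp [dotProduct, B_mulVec]
      rw [h2]
      have h3 := Finset.sum_mul_sq_le_sq_mul_sq Finset.univ w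
        (fun f : Dk k N => if f j = none then v (Function.update f j (some i)) else 0)
      refine h3.trans ?_
      have h4 : ∑ f : Dk k N, w f ^ 2 = 1 := by
        have : ∑ f : Dk k N, w f * w f = 1 := hw
        rw [← this]
        exact Finset.sum_congr rfl fun f _ => by ring
      rw [h4, one_mul]
      have h5 : ∀ f : Dk k N, (if f j = none then v (Function.update f j (some i)) else 0) ^ 2 =
          (if f j = none then v (Function.update f j (some i)) ^ 2 else 0) := by
        intro f; split_ifs <;> simp
      simp only [h5]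
      rw [← Finset.sum_filter, ← Finset.sum_filter]
      apply le_of_eq
      refine Finset.sum_bij' (fun f _ => Function.update f j (some i))
        (fun f _ => Function.update f j none) ?_ ?_ ?_ ?_ ?_
      · intro f hf; simp
      · intro f hf; simp
      · intro f hf
        simp only [Finset.mem_filter, Finset.mem_univ, true_and] at hf
        simp only [Function.update_idem]
        rw [← hf]; simp
      · intro f hf
        simp only [Finset.mem_filter, Finset.mem_univ, true_and] at hf
        simp only [Function.update_idem]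
        rw [← hf]; simp
      · intro f hf; ring
    calc ∑ i : Fin N, (w ⬝ᵥ (B (j, i) *ᵥ v)) ^ 2
        ≤ ∑ i : Fin N, ∑ f : Dk k N, (if f j = some i then v f * v f else 0) :=
          Finset.sum_le_sum fun i _ => h1 i
      _ = ∑ f : Dk k N, ∑ i : Fin N, (if f j = some i then v f * v f else 0) := Finset.sum_comm
      _ ≤ ∑ f : Dk k N, v f * v f := by
          refine Finset.sum_le_sum fun f _ => ?_
          cases hfj : f j with
          | none => simp; nlinarith [sq_nonneg (v f)]
          | some a => simp
      _ = 1 := hv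
  calc ∑ j : Fin k, ∑ i : Fin N, (w ⬝ᵥ (B (j, i) *ᵥ v)) ^ 2 ≤ ∑ j : Fin k, (1 : ℝ) :=
        Finset.sum_le_sum fun j _ => key j
    _ = k := by simp

/-- product test vector. -/
noncomputable def u {N : ℕ} (s : Fin N → ℝ) : Option (Fin N) → ℝ
  | none => 1 / Real.sqrt 2
  | some i => s i / (Real.sqrt 2 * Real.sqrt N)

noncomputable def tv {k N : ℕ} (s : Fin k × Fin N → ℝ) : Dk k N → ℝ :=
  fun f => ∏ j, u (fun i => s (j, i)) (f j)

lemma u_sum {N : ℕ} (hN : 0 < N) (s : Fin N → ℝ) (hs : ∀ i, s i ^ 2 = 1) :
    ∑ a : Option (Fin N), u s a * u s a = 1 := by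
  rw [Fintype.sum_option]
  simp only [u]
  have h2 : Real.sqrt 2 * Real.sqrt 2 = 2 := Real.mul_self_sqrt (by norm_num)
  have hN' : Real.sqrt N * Real.sqrt N = N := Real.mul_self_sqrt (by positivity)
  have hN0 : (N : ℝ) ≠ 0 := by positivity
  have h3 : ∀ i : Fin N, s i / (Real.sqrt 2 * Real.sqrt N) * (s i / (Real.sqrt 2 * Real.sqrt N)) =
      1 / (2 * N) := by
    intro i
    rw [div_mul_div_comm]
    rw [show s i * s i = 1 by rw [← hs i]; ring]
    rw [show Real.sqrt 2 * Real.sqrt N * (Real.sqrt 2 * Real.sqrt N) =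
      (Real.sqrt 2 * Real.sqrt 2) * (Real.sqrt N * Real.sqrt N) by ring, h2, hN']
  simp only [h3]
  rw [div_mul_div_comm, h2]
  simp
  field_simp
  norm_num

lemma tv_norm {k N : ℕ} (hN : 0 < N) (s : Fin k × Fin N → ℝ) (hs : ∀ p, s p ^ 2 = 1) :
    tv s ⬝ᵥ tv s = 1 := by
  classical
  have h1 : tv s ⬝ᵥ tv s = ∑ f : Dk k N, ∏ j, (u (fun i => s (j, i)) (f j) * u (fun i => s (j, i)) (f j)) := by
    simp only [dotProduct, tv, Finset.prod_mul_distrib]
  rw [h1]
  rw [← Fintype.prod_sum (fun (j : Fin k) (a : Option (Fin N)) =>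
    u (fun i => s (j, i)) a * u (fun i => s (j, i)) a)]
  refine Finset.prod_eq_one fun j _ => u_sum hN _ fun i => hs _

lemma tv_form {k N : ℕ} (hN : 0 < N) (s : Fin k × Fin N → ℝ) (hs : ∀ p, s p ^ 2 = 1)
    (p : Fin k × Fin N) :
    tv s ⬝ᵥ (B p *ᵥ tv s) = s p / (2 * Real.sqrt N) := by
  classical
  have h1 : tv s ⬝ᵥ (B p *ᵥ tv s) =
      ∑ f : Dk k N, ∏ j, (if j = p.1 then
        (if f j = none then u (fun i => s (j, i)) (f j) * u (fun i => s (j, i)) (some p.2) else 0)
        else u (fun i => s (j, i)) (f j) * u (fun i => s (j, i)) (f j)) := by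
    simp only [dotProduct, B_mulVec]
    refine Finset.sum_congr rfl fun f _ => ?_
    by_cases hf : f p.1 = none
    · simp only [hf, if_true]
      rw [tv, tv, ← Finset.prod_mul_distrib]
      refine Finset.prod_congr rfl fun j _ => ?_
      by_cases hj : j = p.1
      · subst hj
        simp [hf]
      · simp [hj]
    · simp only [hf, if_false, mul_zero]
      symm
      apply Finset.prod_eq_zero (Finset.mem_univ p.1)
      simp [hf]
  rw [h1]
  rw [← Fintype.prod_sum (fun (j : Fin k) (a : Option (Fin N)) => (if j = p.1 then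
        (if a = none then u (fun i => s (j, i)) a * u (fun i => s (j, i)) (some p.2) else 0)
        else u (fun i => s (j, i)) a * u (fun i => s (j, i)) a))]
  rw [Finset.prod_eq_single p.1]
  · simp only [if_true]
    rw [Fintype.sum_option]
    simp only [if_true, reduceCtorEq, if_false, Finset.sum_const_zero, add_zero, u]
    rw [div_mul_div_comm]
    have h2 : Real.sqrt 2 * Real.sqrt 2 = 2 := Real.mul_self_sqrt (by norm_num)
    rw [← mul_assoc, h2, one_mul]
  · intro j _ hj
    simp only [hj, if_false]
    exact u_sum hN _ fun i => hs _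
  · simp

end Pool.Agent.H512R3.Khin
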