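import Mathlib
import Pool.Agent.H512R3.Khin

set_option autoImplicit false
open MeasureTheory ProbabilityTheory Matrix

namespace Pool.Agent.H512R3.Khin

section General
variable {n d : ℕ} (A : Fin n → Matrix (Fin d) (Fin d) ℝ)

lemma form_sum (g : Fin n → ℝ) (v w : Fin d → ℝ) :
    w ⬝ᵥ ((∑ i, g i • A i) *ᵥ v) = ∑ i, g i * (w ⬝ᵥ (A i *ᵥ v)) := by
  rw [Matrix.sum_mulVec, dotProduct_sum]
  refine Finset.sum_congr rfl fun i _ => ?_
  rw [Matrix.smul_mulVec, dotProduct_smul, smul_eq_mul]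

/-- the set whose supremum is the operator norm. -/
def FS (g : Fin n → ℝ) : Set ℝ :=
  {x : ℝ | ∃ v w : Fin d → ℝ, v ⬝ᵥ v = 1 ∧ w ⬝ᵥ w = 1 ∧ x = w ⬝ᵥ ((∑ i, g i • A i) *ᵥ v)}

variable {A}
variable {K : ℝ} (hK : 0 ≤ K)
  (hA : ∀ (v w : Fin d → ℝ), v ⬝ᵥ v = 1 → w ⬝ᵥ w = 1 → ∀ i, |w ⬝ᵥ (A i *ᵥ v)| ≤ K)
include hK hA

set_option linter.unusedSectionVars false

lemma form_le (g : Fin n → ℝ) (v w : Fin d → ℝ) (hv : v ⬝ᵥ v = 1) (hw : w ⬝ᵥ w = 1) :
    w ⬝ᵥ ((∑ i, g i • A i) *ᵥ v) ≤ K * ∑ i, |g i| := by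
  rw [form_sum, Finset.mul_sum]
  refine Finset.sum_le_sum fun i _ => ?_
  calc g i * (w ⬝ᵥ (A i *ᵥ v)) ≤ |g i * (w ⬝ᵥ (A i *ᵥ v))| := le_abs_self _
    _ = |g i| * |w ⬝ᵥ (A i *ᵥ v)| := abs_mul _ _
    _ ≤ |g i| * K := mul_le_mul_of_nonneg_left (hA v w hv hw i) (abs_nonneg _)
    _ = K * |g i| := mul_comm _ _

lemma FS_bdd (g : Fin n → ℝ) : BddAbove (FS A g) := by
  refine ⟨K * ∑ i, |g i|, ?_⟩
  rintro x ⟨v, w, hv, hw, rfl⟩
  exact form_le hK hA g v w hv hw

lemma FS_sub (g g' : Fin n → ℝ) : sSup (FS A g) ≤ sSup (FS A g') + K * ∑ i, |g i - g' i| := by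
  by_cases hne : (FS A g).Nonempty
  · refine csSup_le hne ?_
    rintro x ⟨v, w, hv, hw, rfl⟩
    have h1 : w ⬝ᵥ ((∑ i, g i • A i) *ᵥ v) = w ⬝ᵥ ((∑ i, g' i • A i) *ᵥ v) +
        w ⬝ᵥ ((∑ i, (fun i => g i - g' i) i • A i) *ᵥ v) := by
      rw [form_sum, form_sum, form_sum, ← Finset.sum_add_distrib]
      exact Finset.sum_congr rfl fun i _ => by ring
    rw [h1]
    refine add_le_add ?_ (form_le hK hA _ v w hv hw)
    exact le_csSup (FS_bdd hK hA g') ⟨v, w, hv, hw, rfl⟩
  · have hne' : ¬ (FS A g').Nonempty := by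
      rintro ⟨x, v, w, hv, hw, _⟩
      exact hne ⟨_, v, w, hv, hw, rfl⟩
    rw [Set.not_nonempty_iff_eq_empty] at hne hne'
    rw [hne, hne']
    simp only [Real.sSup_empty, zero_add]
    exact mul_nonneg hK (Finset.sum_nonneg fun i _ => abs_nonneg _)

lemma FS_continuous : Continuous (fun g : Fin n → ℝ => sSup (FS A g)) := by
  rw [continuous_iff_continuousAt]
  intro g0
  rw [ContinuousAt, tendsto_iff_dist_tendsto_zero]
  have h1 : ∀ g : Fin n → ℝ, dist (sSup (FS A g)) (sSup (FS A g0)) ≤ K * ∑ i, |g i - g0 i| := by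
    intro g
    rw [Real.dist_eq, abs_le]
    constructor
    · have := FS_sub hK hA g0 g
      have h2 : ∑ i, |g0 i - g i| = ∑ i, |g i - g0 i| :=
        Finset.sum_congr rfl fun i _ => abs_sub_comm _ _
      rw [h2] at this
      linarith
    · have := FS_sub hK hA g g0
      linarith
  refine squeeze_zero (fun _ => dist_nonneg) h1 ?_
  have h3 : Continuous (fun g : Fin n → ℝ => K * ∑ i, |g i - g0 i|) := by fun_prop
  have h4 := h3.tendsto g0
  simpa using h4

lemma FS_abs_le (g : Fin n → ℝ) : |sSup (FS A g)| ≤ K * ∑ i, |g i| := by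
  have h0 : sSup (FS A (0 : Fin n → ℝ)) = 0 := by
    by_cases hne : (FS A (0 : Fin n → ℝ)).Nonempty
    · have : FS A (0 : Fin n → ℝ) = {0} := by
        ext x
        constructor
        · rintro ⟨v, w, hv, hw, rfl⟩
          simp
        · rintro rfl
          obtain ⟨x, v, w, hv, hw, _⟩ := hne
          exact ⟨v, w, hv, hw, by simp⟩
      rw [this]; simp
    · rw [Set.not_nonempty_iff_eq_empty] at hne
      rw [hne]; simp
  have h1 := FS_sub hK hA g 0
  have h2 := FS_sub hK hA 0 g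
  rw [h0] at h1 h2
  simp only [Pi.zero_apply, sub_zero, zero_sub, abs_neg] at h1 h2
  rw [abs_le]
  constructor <;> linarith

lemma integrable_abs_coord (i : Fin n) :
    Integrable (fun g : Fin n → ℝ => |g i|) (Measure.pi fun _ : Fin n => gaussianReal 0 1) := by
  have h1 : Integrable (fun x : ℝ => |x|) (gaussianReal 0 1) := by
    have h2 : MemLp id 1 (gaussianReal 0 1) := memLp_id_gaussianReal 1
    exact (memLp_one_iff_integrable.1 h2).abs
  exact (measurePreserving_eval (fun _ : Fin n => gaussianReal 0 1) i).integrable_comp_of_integrable h1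

lemma FS_integrable : Integrable (fun g : Fin n → ℝ => sSup (FS A g))
    (Measure.pi fun _ : Fin n => gaussianReal 0 1) := by
  have h1 : Integrable (fun g : Fin n → ℝ => K * ∑ i, |g i|)
      (Measure.pi fun _ : Fin n => gaussianReal 0 1) := by
    refine Integrable.const_mul ?_ K
    exact integrable_finsetSum _ fun i _ => integrable_abs_coord hK hA i
  refine h1.mono' (FS_continuous hK hA).aestronglyMeasurable ?_
  exact Filter.Eventually.of_forall fun g => FS_abs_le hK hA g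

end General

/-- the first absolute moment of the standard normal law. -/
noncomputable def m1 : ℝ := ∫ x, |x| ∂(gaussianReal 0 1)

lemma m1_int : Integrable (fun x : ℝ => |x|) (gaussianReal 0 1) := by
  have h2 : MemLp id 1 (gaussianReal 0 1) := memLp_id_gaussianReal 1
  exact (memLp_one_iff_integrable.1 h2).abs

lemma m1_pos : 0 < m1 := by
  rw [m1, integral_pos_iff_support_of_nonneg (fun x => abs_nonneg x) m1_int]
  have h1 : Function.support (fun x : ℝ => |x|) = {0}ᶜ := by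
    ext x; simp
  rw [h1]
  have h2 : (gaussianReal 0 1) {(0 : ℝ)} = 0 := by
    have : NullSingletonClass (gaussianReal 0 1) := nullSingletonClass_gaussianReal one_ne_zero
    exact measure_singleton 0
  rw [prob_compl_eq_one_sub (MeasurableSet.singleton 0), h2]
  simp

lemma integral_abs_coord {n : ℕ} (i : Fin n) :
    ∫ g : Fin n → ℝ, |g i| ∂(Measure.pi fun _ : Fin n => gaussianReal 0 1) = m1 := by
  have h := (measurePreserving_eval (fun _ : Fin n => gaussianReal 0 1) i)
  have h2 : ∫ x, |x| ∂(Measure.map (Function.eval i) (Measure.pi fun _ : Fin n => gaussianReal 0 1))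
      = ∫ g : Fin n → ℝ, |Function.eval i g| ∂(Measure.pi fun _ : Fin n => gaussianReal 0 1) :=
    integral_map h.measurable.aemeasurable continuous_abs.aestronglyMeasurable
  rw [h.map_eq] at h2
  exact h2.symm

end Pool.Agent.H512R3.Khin
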