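import Mathlib
import Pool.Agent.H39R3.PB.Basic

/-! Task T6 of the palindrome project in base `b`: the pointwise bound (port of
`Pool.Agent.H287R2.PalT6`). -/

set_option autoImplicit false

namespace Pool.Agent.H512R3.PBT6

open Finset Pool.Agent.Helper112 Pool.Agent.H39R3.PB

/-- `(b + 1) ^ 2` -/
noncomputable def KK (b : ℕ) : ℝ := ((b : ℝ) + 1) ^ 2

/-- the constant `κ = (2 - sqrt (2 + 2 cos (2 π / (b+1)^2))) / b` -/
noncomputable def kap (b : ℕ) : ℝ := (2 - Real.sqrt (2 + 2 * Real.cos (2 * Real.pi / KK b))) / b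

lemma KK_ge {b : ℕ} (hb : 2 ≤ b) : 9 ≤ KK b := by
  unfold KK
  have : (2 : ℝ) ≤ b := by exact_mod_cast hb
  nlinarith

lemma cos_lt {b : ℕ} (hb : 2 ≤ b) : Real.cos (2 * Real.pi / KK b) < 1 := by
  have hK := KK_ge hb
  have hpi := Real.pi_pos
  have h0 : 0 < 2 * Real.pi / KK b := by positivity
  have h1 : 2 * Real.pi / KK b ≤ Real.pi := by
    rw [div_le_iff₀ (by linarith)]
    nlinarith
  have h := Real.cos_lt_cos_of_nonneg_of_le_pi (x := 0) (y := 2 * Real.pi / KK b) le_rfl h1 h0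
  simpa using h

lemma cos_gt {b : ℕ} (hb : 2 ≤ b) : -1 < Real.cos (2 * Real.pi / KK b) := by
  have hK := KK_ge hb
  have hpi := Real.pi_pos
  have h0 : 0 ≤ 2 * Real.pi / KK b := by positivity
  have h1 : 2 * Real.pi / KK b < Real.pi := by
    rw [div_lt_iff₀ (by linarith)]
    nlinarith
  have h := Real.cos_lt_cos_of_nonneg_of_le_pi (x := 2 * Real.pi / KK b) (y := Real.pi) h0 le_rfl h1
  simpa using h

lemma kap_pos {b : ℕ} (hb : 2 ≤ b) : 0 < kap b := by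
  unfold kap
  have h1 := cos_lt hb
  have h3 := cos_gt hb
  have h2 : Real.sqrt (2 + 2 * Real.cos (2 * Real.pi / KK b)) < 2 := by
    rw [Real.sqrt_lt' (by norm_num)]
    linarith
  have hb0 : (0 : ℝ) < b := by exact_mod_cast (by omega : 0 < b)
  exact div_pos (by linarith) hb0

lemma kap_lt_one {b : ℕ} (hb : 2 ≤ b) : kap b < 1 := by
  unfold kap
  have h3 := cos_gt hb
  have h2 : 0 < Real.sqrt (2 + 2 * Real.cos (2 * Real.pi / KK b)) := Real.sqrt_pos.2 (by linarith)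
  have hb0 : (2 : ℝ) ≤ b := by exact_mod_cast hb
  rw [div_lt_one (by linarith)]
  linarith

/-- `|1 + e(x)|` away from the integers -/
lemma norm_one_add {b : ℕ} (hb : 2 ≤ b) (x : ℝ) (h1 : 1 / KK b ≤ |x|) (h2 : |x| ≤ 1 / 2) :
    ‖1 + ee x‖ ≤ Real.sqrt (2 + 2 * Real.cos (2 * Real.pi / KK b)) := by
  apply Real.le_sqrt_of_sq_le
  have hK := KK_ge hb
  have hee : ee x = Complex.cos ((2 * Real.pi * x : ℝ)) + Complex.sin ((2 * Real.pi * x : ℝ)) * Complex.I := by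
    unfold ee
    rw [← Complex.exp_mul_I]
    congr 1
    push_cast
    ring
  have hsq : ‖1 + ee x‖ ^ 2 = 2 + 2 * Real.cos (2 * Real.pi * x) := by
    rw [← Complex.normSq_eq_norm_sq, hee, Complex.normSq_apply]
    rw [← Complex.ofReal_cos, ← Complex.ofReal_sin]
    simp only [Complex.add_re, Complex.one_re, Complex.ofReal_re, Complex.mul_re, Complex.I_re,
      Complex.ofReal_im, Complex.I_im, Complex.add_im, Complex.one_im, Complex.mul_im]
    have := Real.sin_sq_add_cos_sq (2 * Real.pi * x)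
    nlinarith
  rw [hsq]
  have hcos : Real.cos (2 * Real.pi * x) ≤ Real.cos (2 * Real.pi / KK b) := by
    rw [← Real.cos_abs (2 * Real.pi * x)]
    have habs : |2 * Real.pi * x| = 2 * Real.pi * |x| := by
      rw [abs_mul, abs_of_pos (by positivity)]
    rw [habs]
    have hpi := Real.pi_pos
    apply Real.cos_le_cos_of_nonneg_of_le_pi (by positivity)
    · nlinarith
    · calc 2 * Real.pi / KK b = 2 * Real.pi * (1 / KK b) := by ring
        _ ≤ 2 * Real.pi * |x| := by gcongr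
  linarith

lemma ph_le {b : ℕ} (hb : 2 ≤ b) (β : ℝ) (h : 1 / KK b ≤ |β - round β|) : ph b β ≤ 1 - kap b := by
  have h1 : ph b β = ph b (β - round β) := by
    have := ph_add_int (b := b) (β - round β) (round β)
    rw [sub_add_cancel] at this
    exact this
  rw [h1]
  have h2 : |β - round β| ≤ 1 / 2 := abs_sub_round β
  generalize β - round β = x at h h2
  have h3 := norm_one_add hb x h h2
  have hb0 : (0 : ℝ) < b := by exact_mod_cast (by omega : 0 < b)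
  have h4 : ∑ m ∈ range b, ee ((m : ℝ) * x) = (1 + ee x) + ∑ m ∈ Ico (2:ℕ) b, ee ((m : ℝ) * x) := by
    rw [← sum_range_add_sum_Ico _ hb]
    congr 1
    rw [sum_range_succ, sum_range_one]
    simp [ls_ee_zero]
  have h5 : ‖∑ m ∈ Ico (2:ℕ) b, ee ((m : ℝ) * x)‖ ≤ (b : ℝ) - 2 := by
    calc ‖∑ m ∈ Ico (2:ℕ) b, ee ((m : ℝ) * x)‖ ≤ ∑ m ∈ Ico (2:ℕ) b, ‖ee ((m : ℝ) * x)‖ := norm_sum_le _ _
      _ = (b : ℝ) - 2 := by
        simp only [ls_norm_ee, sum_const, Nat.card_Ico, nsmul_eq_mul, mul_one]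
        rw [Nat.cast_sub hb]
        norm_num
  have h6 := norm_add_le (1 + ee x) (∑ m ∈ Ico (2:ℕ) b, ee ((m : ℝ) * x))
  have h7 : ph b x = ‖(1 + ee x) + ∑ m ∈ Ico (2:ℕ) b, ee ((m : ℝ) * x)‖ / b := by
    unfold ph
    rw [h4]
  rw [h7]
  unfold kap
  rw [show (1 : ℝ) - (2 - Real.sqrt (2 + 2 * Real.cos (2 * Real.pi / KK b))) / b =
    (b - 2 + Real.sqrt (2 + 2 * Real.cos (2 * Real.pi / KK b))) / b by field_simp; ring]
  gcongr
  linarith

/-- in every run of `2 t + 2` consecutive digits there is one with a large phase -/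
lemma run {b : ℕ} (hb : 2 ≤ b) (q t a L c₀ : ℕ) (hq1 : 1 < q) (hq : q.Coprime (2 * b))
    (ha : a.Coprime q) (ht : q < b ^ t) (hc : 1 ≤ c₀) (hL : c₀ + (2 * t + 2) ≤ L) :
    ∃ j < 2 * t + 2, 1 / KK b ≤ |(fr b L (c₀ + j) : ℝ) * ((a : ℝ) / q) -
      round ((fr b L (c₀ + j) : ℝ) * ((a : ℝ) / q))| := by
  by_contra hcon
  push Not at hcon
  have hqb : q.Coprime b := coprime_b hq
  have hq0 : (0 : ℝ) < q := by exact_mod_cast (by omega : 0 < q)
  have hK := KK_ge hb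
  have hb1 : (2 : ℤ) ≤ b := by exact_mod_cast hb
  -- the signed remainders
  let u : ℕ → ℤ := fun j => (fr b L (c₀ + j) : ℤ) * a - q * round ((fr b L (c₀ + j) : ℝ) * ((a : ℝ) / q))
  have hu : ∀ j < 2 * t + 2, ((b : ℤ) + 1) ^ 2 * |u j| < q := by
    intro j hj
    have h1 := hcon j hj
    have h2 : ((u j : ℤ) : ℝ) = q * ((fr b L (c₀ + j) : ℝ) * ((a : ℝ) / q) -
        round ((fr b L (c₀ + j) : ℝ) * ((a : ℝ) / q))) := by
      simp only [u]
      push_cast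
      field_simp
    have h3 : ((b : ℝ) + 1) ^ 2 * |((u j : ℤ) : ℝ)| < q := by
      rw [h2, abs_mul, abs_of_pos hq0]
      have h4 : KK b * |(fr b L (c₀ + j) : ℝ) * ((a : ℝ) / q) -
          round ((fr b L (c₀ + j) : ℝ) * ((a : ℝ) / q))| < 1 := by
        rw [lt_div_iff₀ (by linarith)] at h1
        linarith
      calc ((b : ℝ) + 1) ^ 2 * (q * |(fr b L (c₀ + j) : ℝ) * ((a : ℝ) / q) -
          round ((fr b L (c₀ + j) : ℝ) * ((a : ℝ) / q))|)
          = q * (KK b * |(fr b L (c₀ + j) : ℝ) * ((a : ℝ) / q) -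
          round ((fr b L (c₀ + j) : ℝ) * ((a : ℝ) / q))|) := by unfold KK; ring
        _ < q * 1 := by gcongr
        _ = q := mul_one _
    exact_mod_cast h3
  have hdvd : ∀ j < 2 * t + 2, (q : ℤ) ∣ (fr b L (c₀ + j) : ℤ) * a - u j := by
    intro j _
    refine ⟨round ((fr b L (c₀ + j) : ℝ) * ((a : ℝ) / q)), ?_⟩
    simp only [u]
    ring
  have hfr : ∀ j < 2 * t + 2, (fr b L (c₀ + j) : ℤ) =
      (b : ℤ) ^ (L + (c₀ + j)) + (b : ℤ) ^ (L - (c₀ + j)) := by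
    intro j _
    unfold fr
    rw [if_neg (by omega)]
    push_cast
    ring
  -- the recurrence
  have hrec : ∀ j, j + 2 < 2 * t + 2 →
      (b : ℤ) * u (j + 2) - ((b : ℤ) ^ 2 + 1) * u (j + 1) + b * u j = 0 := by
    intro j hj
    have e0 : (b : ℤ) * fr b L (c₀ + (j + 2)) - ((b : ℤ) ^ 2 + 1) * fr b L (c₀ + (j + 1)) +
        b * fr b L (c₀ + j) = 0 := by
      rw [hfr (j + 2) (by omega), hfr (j + 1) (by omega), hfr j (by omega)]
      obtain ⟨M, hM⟩ : ∃ M, L = M + (c₀ + (j + 2)) := ⟨L - (c₀ + (j + 2)), by omega⟩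
      have e1 : L - (c₀ + (j + 2)) = M := by omega
      have e2 : L - (c₀ + (j + 1)) = M + 1 := by omega
      have e3 : L - (c₀ + j) = M + 2 := by omega
      rw [e1, e2, e3]
      rw [show L + (c₀ + (j + 2)) = (L + (c₀ + j)) + 2 by ring,
        show L + (c₀ + (j + 1)) = (L + (c₀ + j)) + 1 by ring]
      ring
    have e4 : (q : ℤ) ∣ (b : ℤ) * u (j + 2) - ((b : ℤ) ^ 2 + 1) * u (j + 1) + b * u j := by
      have h2 := hdvd (j + 2) (by omega)
      have h1 := hdvd (j + 1) (by omega)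
      have h0 := hdvd j (by omega)
      have h3 := ((h2.mul_left (b : ℤ)).sub (h1.mul_left ((b : ℤ) ^ 2 + 1))).add (h0.mul_left (b : ℤ))
      have h4 : (b : ℤ) * ((fr b L (c₀ + (j + 2)) : ℤ) * a - u (j + 2)) -
          ((b : ℤ) ^ 2 + 1) * ((fr b L (c₀ + (j + 1)) : ℤ) * a - u (j + 1)) +
          b * ((fr b L (c₀ + j) : ℤ) * a - u j) =
          ((b : ℤ) * (fr b L (c₀ + (j + 2)) : ℤ) - ((b : ℤ) ^ 2 + 1) * fr b L (c₀ + (j + 1)) +
            b * fr b L (c₀ + j)) * a -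
          ((b : ℤ) * u (j + 2) - ((b : ℤ) ^ 2 + 1) * u (j + 1) + b * u j) := by ring
      rw [h4, e0, zero_mul, zero_sub] at h3
      exact (dvd_neg.1 h3)
    have e5 : |(b : ℤ) * u (j + 2) - ((b : ℤ) ^ 2 + 1) * u (j + 1) + (b : ℤ) * u j| < (q : ℤ) := by
      have h2 := hu (j + 2) (by omega)
      have h1 := hu (j + 1) (by omega)
      have h0 := hu j (by omega)
      have hb0 : (0 : ℤ) ≤ b := by omega
      have hB : (0 : ℤ) < ((b : ℤ) + 1) ^ 2 := by positivity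
      have t1 : |(b : ℤ) * u (j + 2) - ((b : ℤ) ^ 2 + 1) * u (j + 1) + b * u j| ≤
          b * |u (j + 2)| + ((b : ℤ) ^ 2 + 1) * |u (j + 1)| + b * |u j| := by
        calc |(b : ℤ) * u (j + 2) - ((b : ℤ) ^ 2 + 1) * u (j + 1) + b * u j|
            ≤ |(b : ℤ) * u (j + 2) - ((b : ℤ) ^ 2 + 1) * u (j + 1)| + |(b : ℤ) * u j| := abs_add_le _ _
          _ ≤ |(b : ℤ) * u (j + 2)| + |((b : ℤ) ^ 2 + 1) * u (j + 1)| + |(b : ℤ) * u j| := by
              gcongr
              exact abs_sub _ _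
          _ = _ := by
              rw [abs_mul, abs_mul, abs_mul, abs_of_nonneg hb0,
                abs_of_nonneg (by positivity : (0 : ℤ) ≤ (b : ℤ) ^ 2 + 1)]
      have t2 : ((b : ℤ) + 1) ^ 2 * (b * |u (j + 2)| + ((b : ℤ) ^ 2 + 1) * |u (j + 1)| + b * |u j|) <
          ((b : ℤ) + 1) ^ 2 * q := by
        calc ((b : ℤ) + 1) ^ 2 * (b * |u (j + 2)| + ((b : ℤ) ^ 2 + 1) * |u (j + 1)| + b * |u j|)
            = b * (((b : ℤ) + 1) ^ 2 * |u (j + 2)|) + ((b : ℤ) ^ 2 + 1) * (((b : ℤ) + 1) ^ 2 * |u (j + 1)|) +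
              b * (((b : ℤ) + 1) ^ 2 * |u j|) := by ring
          _ < b * q + ((b : ℤ) ^ 2 + 1) * q + b * q := by
              have c1 := mul_lt_mul_of_pos_left h2 (by omega : (0 : ℤ) < b)
              have c2 := mul_lt_mul_of_pos_left h1 (by positivity : (0 : ℤ) < (b : ℤ) ^ 2 + 1)
              have c3 := mul_lt_mul_of_pos_left h0 (by omega : (0 : ℤ) < b)
              linarith
          _ = _ := by ring
      have t3 := lt_of_mul_lt_mul_left t2 hB.le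
      linarith
    exact Int.eq_zero_of_abs_lt_dvd e4 e5
  -- divisibility by powers of b
  have hpow : ∀ i, ∀ j, i ≤ j → j + i < 2 * t + 2 → (b : ℤ) ^ i ∣ u j := by
    intro i
    induction i with
    | zero => intro j _ _; simp
    | succ i ih =>
      intro j h1 h2
      obtain ⟨k, rfl⟩ : ∃ k, j = k + 1 := ⟨j - 1, by omega⟩
      have h3 := hrec k (by omega)
      have h4 := ih k (by omega) (by omega)
      have h5 := ih (k + 2) (by omega) (by omega)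
      have h6 : (b : ℤ) ^ (i + 1) ∣ ((b : ℤ) ^ 2 + 1) * u (k + 1) := by
        have h7 : ((b : ℤ) ^ 2 + 1) * u (k + 1) = b * u (k + 2) + b * u k := by linarith
        rw [h7, pow_succ, mul_comm ((b:ℤ) ^ i) b]
        exact (mul_dvd_mul_left _ h5).add (mul_dvd_mul_left _ h4)
      have h8 : IsCoprime ((b : ℤ) ^ (i + 1)) ((b : ℤ) ^ 2 + 1) := by
        apply IsCoprime.pow_left
        exact ⟨-b, 1, by ring⟩
      exact h8.dvd_of_dvd_mul_left h6
  have hzero : ∀ j, t ≤ j → j + t < 2 * t + 2 → u j = 0 := by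
    intro j h1 h2
    have h3 := hpow t j h1 h2
    have h4 := hu j (by omega)
    apply Int.eq_zero_of_abs_lt_dvd h3
    have h5 : (q : ℤ) < (b : ℤ) ^ t := by exact_mod_cast ht
    have h6 := abs_nonneg (u j)
    have h7 : |u j| ≤ ((b : ℤ) + 1) ^ 2 * |u j| := by
      have h8 : (1 : ℤ) ≤ ((b : ℤ) + 1) ^ 2 := by nlinarith
      nlinarith
    linarith
  -- conclusion
  have hqc : ∀ j, t ≤ j → j + t < 2 * t + 2 → (q : ℤ) ∣ (b : ℤ) ^ (2 * (c₀ + j)) + 1 := by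
    intro j h1 h2
    have h3 := hdvd j (by omega)
    rw [hzero j h1 h2, sub_zero, hfr j (by omega)] at h3
    have h4 : IsCoprime (q : ℤ) (a : ℤ) := by
      rw [Nat.isCoprime_iff_coprime]
      exact ha.symm
    have h5 := h4.dvd_of_dvd_mul_right h3
    have h6 : (b : ℤ) ^ (L + (c₀ + j)) + (b : ℤ) ^ (L - (c₀ + j)) =
        (b : ℤ) ^ (L - (c₀ + j)) * ((b : ℤ) ^ (2 * (c₀ + j)) + 1) := by
      rw [mul_add, ← pow_add, mul_one]
      congr 2
      omega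
    rw [h6] at h5
    have h7 : IsCoprime (q : ℤ) ((b : ℤ) ^ (L - (c₀ + j))) := by
      apply IsCoprime.pow_right
      exact Nat.isCoprime_iff_coprime.2 hqb
    exact h7.dvd_of_dvd_mul_left h5
  have k1 := hqc t le_rfl (by omega)
  have k2 := hqc (t + 1) (by omega) (by omega)
  have k3 : (q : ℤ) ∣ (b : ℤ) ^ 2 - 1 := by
    have h1 := (k1.mul_left ((b : ℤ) ^ 2)).sub k2
    have h2 : (b : ℤ) ^ 2 * ((b : ℤ) ^ (2 * (c₀ + t)) + 1) - ((b : ℤ) ^ (2 * (c₀ + (t + 1))) + 1) =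
        (b : ℤ) ^ 2 - 1 := by
      rw [show 2 * (c₀ + (t + 1)) = 2 * (c₀ + t) + 2 by ring, pow_add]
      ring
    rwa [h2] at h1
  have k4 : (q : ℤ) ∣ (b : ℤ) ^ (2 * (c₀ + t)) - 1 := by
    have h1 : (b : ℤ) ^ 2 - 1 ∣ (b : ℤ) ^ (2 * (c₀ + t)) - 1 := by
      rw [pow_mul]
      have := sub_dvd_pow_sub_pow ((b : ℤ) ^ 2) 1 (c₀ + t)
      simpa using this
    exact k3.trans h1
  have k5 : (q : ℤ) ∣ 2 := by
    have h1 := k1.sub k4
    have h2 : ((b : ℤ) ^ (2 * (c₀ + t)) + 1) - ((b : ℤ) ^ (2 * (c₀ + t)) - 1) = 2 := by ring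
    rwa [h2] at h1
  have k6 : q ∣ 2 := by exact_mod_cast k5
  have k7 : q ∣ 1 := by
    have h1 : q ∣ Nat.gcd q (2 * b) := Nat.dvd_gcd dvd_rfl (k6.trans (Dvd.intro _ rfl))
    rwa [hq] at h1
  have := Nat.le_of_dvd one_pos k7
  omega

lemma block {b : ℕ} (hb : 2 ≤ b) (q t a L c₀ : ℕ) (hq1 : 1 < q) (hq : q.Coprime (2 * b))
    (ha : a.Coprime q) (ht : q < b ^ t) (hc : 1 ≤ c₀) (hL : c₀ + (2 * t + 2) ≤ L) :
    Ps b L c₀ (2 * t + 2) ((a : ℝ) / q) ≤ 1 - kap b := by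
  obtain ⟨j, hj, h⟩ := run hb q t a L c₀ hq1 hq ha ht hc hL
  have h1 := ph_le hb _ h
  unfold Ps
  rw [← mul_prod_erase (range (2 * t + 2)) _ (mem_range.2 hj)]
  have h2 : ∏ x ∈ (range (2 * t + 2)).erase j, ph b ((fr b L (c₀ + x) : ℝ) * ((a : ℝ) / q)) ≤ 1 :=
    prod_le_one (fun _ _ => ph_nonneg _ _) (fun _ _ => ph_le_one _ _)
  have h3 : 0 ≤ ph b ((fr b L (c₀ + j) : ℝ) * ((a : ℝ) / q)) := ph_nonneg _ _
  calc ph b ((fr b L (c₀ + j) : ℝ) * ((a : ℝ) / q)) *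
      ∏ x ∈ (range (2 * t + 2)).erase j, ph b ((fr b L (c₀ + x) : ℝ) * ((a : ℝ) / q))
      ≤ ph b ((fr b L (c₀ + j) : ℝ) * ((a : ℝ) / q)) * 1 := by gcongr
    _ ≤ 1 - kap b := by linarith

lemma blocks {b : ℕ} (hb : 2 ≤ b) (q t a L : ℕ) (hq1 : 1 < q) (hq : q.Coprime (2 * b))
    (ha : a.Coprime q) (ht : q < b ^ t) (n : ℕ) (hn : 1 + n * (2 * t + 2) ≤ L) :
    Ps b L 1 (n * (2 * t + 2)) ((a : ℝ) / q) ≤ (1 - kap b) ^ n := by
  induction n with
  | zero => simp [Ps_zero]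
  | succ n ih =>
    have h0 : 1 + n * (2 * t + 2) + (2 * t + 2) ≤ L := by
      have : (n + 1) * (2 * t + 2) = n * (2 * t + 2) + (2 * t + 2) := by ring
      omega
    rw [show (n + 1) * (2 * t + 2) = n * (2 * t + 2) + (2 * t + 2) by ring, Ps_add, pow_succ]
    have h1 := ih (by omega)
    have h2 := block hb q t a L (1 + n * (2 * t + 2)) hq1 hq ha ht (by omega) h0
    have h3 : 0 ≤ 1 - kap b := by linarith [kap_lt_one hb]
    exact mul_le_mul h1 h2 (Ps_nonneg _ _ _ _ _) (by positivity)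

/-- T6: pointwise bound -/
theorem taskT6 : TaskT6 := by
  intro b hb
  refine ⟨kap b, kap_pos hb, kap_lt_one hb, ?_⟩
  intro q t a L hq1 hq ha ht
  rcases Nat.eq_zero_or_pos L with hL | hL
  · subst hL
    simp [Ps_zero]
  have h1 : 1 + (L - 1) / (2 * t + 2) * (2 * t + 2) ≤ L := by
    have := Nat.div_mul_le_self (L - 1) (2 * t + 2)
    omega
  exact (Ps_le_block L 1 _ L h1 _).trans (blocks hb q t a L hq1 hq ha ht _ h1)

end Pool.Agent.H512R3.PBT6
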