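import Mathlib

set_option autoImplicit false
open Finset

namespace Pool.Agent.H512R3.Stack

/-- Probability of the event `P` under the uniform distribution on the finite type `X`:
number of outcomes in the event divided by the number of all outcomes. -/
noncomputable def pr {X : Type*} (P : X → Prop) : ℝ :=
  (Nat.card {x : X // P x} : ℝ) / (Nat.card X : ℝ)

lemma pr_eq {X : Type*} [Fintype X] (P : X → Prop) [DecidablePred P] :
    pr P = ((Finset.univ.filter P).card : ℝ) / (Fintype.card X : ℝ) := by
  unfold pr
  rw [Nat.card_eq_fintype_card, Fintype.card_subtype, Nat.card_eq_fintype_card]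

section basic
variable {X Y : Type*} [Fintype X] [Fintype Y]

lemma pr_nonneg (P : X → Prop) : 0 ≤ pr P := by unfold pr; positivity

lemma pr_mono {P Q : X → Prop} (h : ∀ x, P x → Q x) : pr P ≤ pr Q := by
  classical
  simp only [pr_eq]
  apply div_le_div_of_nonneg_right _ (by positivity)
  exact_mod_cast Finset.card_le_card (fun x => by simpa using h x)

lemma pr_or_le (P Q : X → Prop) : pr (fun x => P x ∨ Q x) ≤ pr P + pr Q := by
  classical
  simp only [pr_eq]
  rw [← add_div]
  apply div_le_div_of_nonneg_right _ (by positivity)
  rw [Finset.filter_or]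
  exact_mod_cast Finset.card_union_le _ _

lemma pr_not [Nonempty X] (P : X → Prop) : pr (fun x => ¬ P x) = 1 - pr P := by
  classical
  simp only [pr_eq]
  have h : ((Finset.univ.filter P).card : ℝ) + ((Finset.univ.filter (fun x => ¬ P x)).card : ℝ) =
      (Fintype.card X : ℝ) := by
    have := Finset.card_filter_add_card_filter_not (s := (Finset.univ : Finset X)) P
    rw [← Finset.card_univ]
    exact_mod_cast this
  have hc : (Fintype.card X : ℝ) ≠ 0 := by
    exact_mod_cast Fintype.card_ne_zero
  field_simp
  linarith

lemma pr_exists_le {ι : Type*} [Fintype ι] (P : ι → X → Prop) :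
    pr (fun x => ∃ i, P i x) ≤ ∑ i, pr (P i) := by
  classical
  simp only [pr_eq]
  rw [← Finset.sum_div]
  apply div_le_div_of_nonneg_right _ (by positivity)
  have h : (Finset.univ.filter (fun x => ∃ i, P i x)) =
      Finset.univ.biUnion (fun i => Finset.univ.filter (P i)) := by
    ext x; simp
  have h2 := Finset.card_biUnion_le (s := (Finset.univ : Finset ι))
    (t := fun i => Finset.univ.filter (P i))
  rw [← h] at h2
  exact_mod_cast h2

lemma pr_equiv (e : X ≃ Y) (P : Y → Prop) : pr (fun x => P (e x)) = pr P := by
  classical
  simp only [pr_eq]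
  rw [Fintype.card_congr e]
  congr 2
  exact Finset.card_bij (fun x _ => e x) (by simp) (fun a _ b _ h => e.injective h)
    (fun y hy => ⟨e.symm y, by simpa using hy, by simp⟩)

/-- probability of an event that depends only on the first factor -/
lemma pr_fst [Nonempty Y] (P : X → Prop) : pr (fun z : X × Y => P z.1) = pr P := by
  classical
  simp only [pr_eq]
  have h : (Finset.univ.filter (fun z : X × Y => P z.1)) = (Finset.univ.filter P) ×ˢ Finset.univ := by
    ext z; simp
  rw [h, Finset.card_product, Fintype.card_prod, Finset.card_univ]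
  have hc : (Fintype.card Y : ℝ) ≠ 0 := by
    exact_mod_cast Fintype.card_ne_zero
  push_cast
  rw [mul_div_mul_right _ _ hc]

lemma pr_snd [Nonempty X] (P : Y → Prop) : pr (fun z : X × Y => P z.2) = pr P := by
  rw [← pr_fst (Y := X) P, ← pr_equiv (Equiv.prodComm X Y)]
  rfl

/-- conditioning on the first factor -/
lemma pr_prod_le (P : X × Y → Prop) (c : ℝ) (hc : 0 ≤ c)
    (h : ∀ x, pr (fun y => P (x, y)) ≤ c) : pr P ≤ c := by
  classical
  simp only [pr_eq] at h ⊢
  by_cases hX : IsEmpty X
  · have : (Finset.univ.filter P) = ∅ := by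
      ext z; exact (hX.false z.1).elim
    rw [this]; simpa using hc
  by_cases hY : IsEmpty Y
  · have : (Finset.univ.filter P) = ∅ := by
      ext z; exact (hY.false z.2).elim
    rw [this]; simpa using hc
  rw [not_isEmpty_iff] at hX hY
  have hX0 : (0 : ℝ) < Fintype.card X := by exact_mod_cast Fintype.card_pos
  have hY0 : (0 : ℝ) < Fintype.card Y := by exact_mod_cast Fintype.card_pos
  have h1 : ((Finset.univ.filter P).card : ℝ) =
      ∑ x : X, ((Finset.univ.filter (fun y => P (x, y))).card : ℝ) := by
    have h2 : ∀ x : X, ((Finset.univ.filter (fun y => P (x, y))).card : ℝ) =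
        ∑ y : Y, (if P (x, y) then (1 : ℝ) else 0) := by
      intro x; rw [Finset.sum_boole]
    simp only [h2]
    rw [← Fintype.sum_prod_type' (f := fun x y => if P (x, y) then (1 : ℝ) else 0)]
    rw [Finset.sum_boole]
  rw [h1, Fintype.card_prod]
  rw [div_le_iff₀ (by push_cast; positivity)]
  calc ∑ x : X, ((Finset.univ.filter (fun y => P (x, y))).card : ℝ)
      ≤ ∑ x : X, c * Fintype.card Y := by
        refine Finset.sum_le_sum fun x _ => ?_
        have := h x
        rwa [div_le_iff₀ hY0] at this
    _ = c * ((Fintype.card X * Fintype.card Y : ℕ) : ℝ) := by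
        rw [Finset.sum_const, Finset.card_univ, nsmul_eq_mul]; push_cast; ring

end basic

/-- restricting a uniformly random function along an injection gives a uniformly random function. -/
lemma pr_comp_inj {X J A : Type*} [Fintype X] [Fintype J] [Fintype A] [DecidableEq X]
    [DecidableEq J] [Nonempty A] (ι : J → X) (hι : Function.Injective ι) (P : (J → A) → Prop) :
    pr (fun f : X → A => P (f ∘ ι)) = pr P := by
  classical
  let p : X → Prop := fun x => x ∈ Set.range ι
  let e1 := Equiv.piEquivPiSubtypeProd p (fun _ : X => A)
  let e2 : J ≃ {x // p x} := Equiv.ofInjective ι hι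
  have h1 : pr (fun f : X → A => P (f ∘ ι)) =
      pr (fun z : ({x // p x} → A) × ({x // ¬ p x} → A) => P (z.1 ∘ e2)) := by
    rw [← pr_equiv e1]
    rfl
  rw [h1, pr_fst (fun z : ({x // p x} → A) => P (z ∘ e2))]
  rw [← pr_equiv (Equiv.arrowCongr e2 (Equiv.refl A))]
  congr 1
  ext f
  have : ((Equiv.arrowCongr e2 (Equiv.refl A)) f) ∘ ⇑e2 = f := by ext x; simp
  rw [this]

/-- fixing the value of one coordinate as a function of the others costs a factor `|A|`. -/
lemma pr_upd {X A : Type*} [Fintype X] [Fintype A] [DecidableEq X] [DecidableEq A] [Nonempty A]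
    (x : X) (Q : (X → A) → Prop) (g : (X → A) → A)
    (hQ : ∀ f a, Q f → Q (Function.update f x a))
    (hg : ∀ f a, g (Function.update f x a) = g f) :
    pr (fun f : X → A => Q f ∧ f x = g f) ≤ pr Q / Fintype.card A := by
  classical
  simp only [pr_eq]
  have hA : (0 : ℝ) < Fintype.card A := by exact_mod_cast Fintype.card_pos
  rw [div_div, div_le_div_iff₀ (by positivity) (by positivity)]
  have key : (Finset.univ.filter (fun f : X → A => Q f ∧ f x = g f)).card * Fintype.card A ≤
      (Finset.univ.filter Q).card := by
    rw [← Finset.card_univ, ← Finset.card_product]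
    refine Finset.card_le_card_of_injOn (fun z => Function.update z.1 x z.2) ?_ ?_
    · intro z hz
      simp only [Finset.coe_product, Finset.coe_filter, Finset.mem_univ, true_and, Finset.coe_univ,
        Set.mem_prod, Set.mem_ofPred_eq, Set.mem_univ, and_true] at hz
      simp only [Finset.coe_filter, Finset.mem_univ, true_and, Set.mem_ofPred_eq]
      exact hQ _ _ hz.1
    · intro z hz z' hz' h
      simp only [Finset.coe_product, Finset.coe_filter, Finset.mem_univ, true_and, Finset.coe_univ,
        Set.mem_prod, Set.mem_ofPred_eq, Set.mem_univ, and_true] at hz hz'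
      simp only at h
      have h2 : z.2 = z'.2 := by
        have := congrFun h x; simpa using this
      have hgz : g z.1 = g z'.1 := by
        rw [← hg z.1 z.2, h, hg]
      have h1 : z.1 = z'.1 := by
        ext y
        by_cases hy : y = x
        · subst hy; rw [hz.2, hz'.2, hgz]
        · have := congrFun h y
          simpa [hy] using this
      exact Prod.ext h1 h2
  have key' : ((Finset.univ.filter (fun f : X → A => Q f ∧ f x = g f)).card : ℝ) * Fintype.card A ≤
      ((Finset.univ.filter Q).card : ℝ) := by exact_mod_cast key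
  have hc : (0 : ℝ) ≤ Fintype.card (X → A) := by positivity
  calc ((Finset.univ.filter (fun f : X → A => Q f ∧ f x = g f)).card : ℝ) *
        (Fintype.card (X → A) * Fintype.card A)
      = (((Finset.univ.filter (fun f : X → A => Q f ∧ f x = g f)).card : ℝ) * Fintype.card A) *
        Fintype.card (X → A) := by ring
    _ ≤ ((Finset.univ.filter Q).card : ℝ) * Fintype.card (X → A) :=
        mul_le_mul_of_nonneg_right key' hc

end Pool.Agent.H512R3.Stack
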