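import Mathlib
import Pool.Agent.H512R3.StackProb

set_option autoImplicit false
open Finset Matrix

namespace Pool.Agent.H512R3.Stack

/-- The real number `±1` attached to a sign. -/
noncomputable def sg (x : Bool) : ℝ := if x then 1 else -1

/-- Outcomes of the randomness of an `n × (ζ b)` SparseStack: the signs `ϱ i j` and the positions
`s i j`, for `i` a row and `j` a block. The uniform distribution on this finite type makes all
signs Rademacher, all positions uniform, and everything independent. -/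
abbrev Outcome (n ζ b : ℕ) : Type := (Fin n → Fin ζ → Bool) × (Fin n → Fin ζ → Fin b)

/-- The SparseStack matrix. Its `k = ζ b` columns are indexed by (block, position in the block);
block `j` of row `i` is `ζ^(-1/2) ϱ i j e_{s i j}`. -/
noncomputable def sparseStack {n ζ b : ℕ} (ω : Outcome n ζ b) :
    Matrix (Fin n) (Fin ζ × Fin b) ℝ :=
  fun i c => if ω.2 i c.1 = c.2 then sg (ω.1 i c.1) / Real.sqrt ζ else 0

/-- The squared Euclidean norm of `Ωᵀ x`. -/
noncomputable def sqNormImage {n ζ b : ℕ} (ω : Outcome n ζ b) (x : Fin n → ℝ) : ℝ :=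
  ((sparseStack ω)ᵀ *ᵥ x) ⬝ᵥ ((sparseStack ω)ᵀ *ᵥ x)

/-- Injectivity of `Ω` on the subspace `V` with parameter `α`:
`α ‖x‖² ≤ ‖Ωᵀ x‖²` for every `x` in `V`. -/
def Injects {n ζ b : ℕ} (ω : Outcome n ζ b) (V : Submodule ℝ (Fin n → ℝ)) (α : ℝ) : Prop :=
  ∀ x ∈ V, α * (x ⬝ᵥ x) ≤ sqNormImage ω x

/-- The SparseStack with parameters `n, ζ, b` is an oblivious subspace injection with parameter `α`
and failure probability `δ` for `r`-dimensional subspaces of `ℝⁿ`: for every fixed `r`-dimensional
subspace `V`, injectivity on `V` holds with probability at least `1 - δ`. (The isotropy condition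
`𝔼 ‖Ωᵀ x‖² = ‖x‖²` holds for every SparseStack, so it imposes nothing and is left out.) -/
def IsOSI (n ζ b r : ℕ) (α δ : ℝ) : Prop :=
  ∀ V : Submodule ℝ (Fin n → ℝ), Module.finrank ℝ V = r →
    1 - δ ≤ pr (fun ω : Outcome n ζ b => Injects ω V α)

lemma sg_sq (x : Bool) : sg x * sg x = 1 := by unfold sg; split_ifs <;> norm_num

/-- The deterministic obstruction. -/
lemma det_lemma {n ζ b m : ℕ} (hζ : 1 ≤ ζ) (hm : 1 ≤ m) (ω : Outcome n ζ b) (R : Fin n)
    (ch : Fin ζ × Fin m → Fin n) (hR : ∀ p, ch p ≠ R)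
    (hat : ∀ p, ω.2 (ch p) p.1 = ω.2 R p.1)
    (hcol : ∀ p p' : Fin ζ × Fin m, p ≠ p' → ∀ j, j ≠ p.1 → j ≠ p'.1 →
      ω.2 (ch p) j ≠ ω.2 (ch p') j) :
    ∃ x : Fin n → ℝ, (∀ i, x i ≠ 0 → i = R ∨ ∃ p, i = ch p) ∧ 1 ≤ x ⬝ᵥ x ∧
      sqNormImage ω x ≤ ((ζ : ℝ) - 1) / m := by
  classical
  have hζ0 : (0 : ℝ) < ζ := by exact_mod_cast hζ
  have hm0 : (0 : ℝ) < m := by exact_mod_cast hm
  let ε : Fin ζ × Fin m → ℝ := fun p => sg (ω.1 R p.1) * sg (ω.1 (ch p) p.1)
  have hε : ∀ p, ε p * ε p = 1 := by
    intro p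
    simp only [ε]
    calc sg (ω.1 R p.1) * sg (ω.1 (ch p) p.1) * (sg (ω.1 R p.1) * sg (ω.1 (ch p) p.1))
        = (sg (ω.1 R p.1) * sg (ω.1 R p.1)) * (sg (ω.1 (ch p) p.1) * sg (ω.1 (ch p) p.1)) := by ring
      _ = 1 := by rw [sg_sq, sg_sq, one_mul]
  let x : Fin n → ℝ := fun i => (if i = R then 1 else 0) - ∑ p, (if i = ch p then ε p / m else 0)
  refine ⟨x, ?_, ?_, ?_⟩
  · intro i hi
    by_contra hcon
    push Not at hcon
    apply hi
    simp only [x]
    rw [if_neg hcon.1, Finset.sum_eq_zero]
    · ring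
    · intro p _
      rw [if_neg (hcon.2 p)]
  · have hxR : x R = 1 := by
      simp only [x]
      rw [Finset.sum_eq_zero]
      · simp
      · intro p _
        rw [if_neg (fun h => hR p h.symm)]
    calc (1 : ℝ) = x R * x R := by rw [hxR]; ring
      _ ≤ ∑ i, x i * x i := Finset.single_le_sum (f := fun i => x i * x i)
          (fun i _ => mul_self_nonneg _) (Finset.mem_univ R)
      _ = x ⬝ᵥ x := rfl
  · -- the leftover terms
    let t : Fin ζ × Fin m → Fin ζ × Fin b → ℝ := fun p c =>
      if p.1 ≠ c.1 ∧ ω.2 (ch p) c.1 = c.2 then -(ε p * sg (ω.1 (ch p) c.1)) / (m * Real.sqrt ζ) else 0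
    have hsq : Real.sqrt ζ * Real.sqrt ζ = ζ := Real.mul_self_sqrt hζ0.le
    have hsq0 : Real.sqrt ζ ≠ 0 := (Real.sqrt_pos.2 hζ0).ne'
    have hval : ∀ c, ((sparseStack ω)ᵀ *ᵥ x) c = ∑ p, t p c := by
      intro c
      have h1 : ((sparseStack ω)ᵀ *ᵥ x) c = sparseStack ω R c -
          ∑ p, (ε p / m) * sparseStack ω (ch p) c := by
        simp only [Matrix.mulVec, dotProduct, Matrix.transpose_apply, x]
        simp only [mul_sub, Finset.mul_sum, Finset.sum_sub_distrib]
        congr 1
        · simp
        · rw [Finset.sum_comm]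
          refine Finset.sum_congr rfl fun p _ => ?_
          simp [mul_comm]
      rw [h1]
      have h2 : ∀ p, (ε p / m) * sparseStack ω (ch p) c =
          (if p.1 = c.1 then (1 / m) * sparseStack ω R c else 0) - t p c := by
        intro p
        by_cases hp : p.1 = c.1
        · have ht : t p c = 0 := by
            simp only [t]
            rw [if_neg]; intro h; exact h.1 hp
          rw [ht, if_pos hp]
          simp only [sparseStack]
          rw [← hp, hat p]
          by_cases hc : ω.2 R p.1 = c.2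
          · rw [if_pos hc, if_pos hc]
            simp only [ε]
            field_simp
            rw [sq, sg_sq]
            ring
          · rw [if_neg hc, if_neg hc]; ring
        · rw [if_neg hp]
          simp only [t, sparseStack]
          by_cases hc : ω.2 (ch p) c.1 = c.2
          · rw [if_pos hc, if_pos ⟨hp, hc⟩]
            field_simp
            ring
          · rw [if_neg hc, if_neg (fun h => hc h.2)]; ring
      simp only [h2]
      rw [Finset.sum_sub_distrib]
      have h3 : ∑ p : Fin ζ × Fin m, (if p.1 = c.1 then (1 / (m : ℝ)) * sparseStack ω R c else 0) =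
          sparseStack ω R c := by
        rw [Fintype.sum_prod_type]
        rw [Finset.sum_eq_single c.1]
        · simp
          field_simp
        · intro j _ hj
          simp [hj]
        · simp
      rw [h3]; ring
    have hprod : ∀ p p' c, p ≠ p' → t p c * t p' c = 0 := by
      intro p p' c hpp
      by_cases h1 : p.1 ≠ c.1 ∧ ω.2 (ch p) c.1 = c.2
      · by_cases h2 : p'.1 ≠ c.1 ∧ ω.2 (ch p') c.1 = c.2
        · exfalso
          exact hcol p p' hpp c.1 (fun h => h1.1 h.symm) (fun h => h2.1 h.symm)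
            (h1.2.trans h2.2.symm)
        · simp only [t]; rw [if_neg h2, mul_zero]
      · simp only [t]; rw [if_neg h1, zero_mul]
    have hsum : sqNormImage ω x = ∑ c, ∑ p, t p c * t p c := by
      unfold sqNormImage
      simp only [dotProduct, hval]
      refine Finset.sum_congr rfl fun c _ => ?_
      rw [Finset.sum_mul_sum]
      refine Finset.sum_congr rfl fun p _ => ?_
      rw [Finset.sum_eq_single p]
      · intro p' _ hp'
        exact hprod p p' c (fun h => hp' h.symm)
      · simp
    rw [hsum, Finset.sum_comm]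
    have h4 : ∀ p : Fin ζ × Fin m, ∑ c, t p c * t p c = ((ζ : ℝ) - 1) / (m ^ 2 * ζ) := by
      intro p
      have h5 : ∀ c, t p c * t p c =
          if p.1 ≠ c.1 ∧ ω.2 (ch p) c.1 = c.2 then 1 / (m ^ 2 * ζ : ℝ) else 0 := by
        intro c
        simp only [t]
        split_ifs with h
        · rw [div_mul_div_comm]
          congr 1
          · calc -(ε p * sg (ω.1 (ch p) c.1)) * -(ε p * sg (ω.1 (ch p) c.1))
                = (ε p * ε p) * (sg (ω.1 (ch p) c.1) * sg (ω.1 (ch p) c.1)) := by ring
              _ = 1 := by rw [hε, sg_sq, one_mul]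
          · calc (m : ℝ) * Real.sqrt ζ * (m * Real.sqrt ζ) =
                  m ^ 2 * (Real.sqrt ζ * Real.sqrt ζ) := by ring
              _ = m ^ 2 * ζ := by rw [hsq]
        · ring
      simp only [h5]
      rw [Fintype.sum_prod_type]
      have h6 : ∀ j : Fin ζ, ∑ y : Fin b,
          (if p.1 ≠ j ∧ ω.2 (ch p) j = y then 1 / (m ^ 2 * ζ : ℝ) else 0) =
          1 / (m ^ 2 * ζ : ℝ) - (if j = p.1 then 1 / (m ^ 2 * ζ : ℝ) else 0) := by
        intro j
        by_cases hj : p.1 = j
        · subst hj; simp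
        · have hj' : ¬ (j = p.1) := fun h => hj h.symm
          simp [hj, hj']
      simp only [h6]
      rw [Finset.sum_sub_distrib]
      simp
      field_simp
    simp only [h4]
    rw [Finset.sum_const, Finset.card_univ, Fintype.card_prod, Fintype.card_fin, Fintype.card_fin,
      nsmul_eq_mul]
    push_cast
    apply le_of_eq
    field_simp

end Pool.Agent.H512R3.Stack
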