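import Mathlib
import Pool.Agent.H512R3.StackProb

set_option autoImplicit false
open Finset

namespace Pool.Agent.H512R3.Stack

/-- `f` hits the value `c`. -/
def Hits {q b : ℕ} (f : Fin q → Fin b) (c : Fin b) : Prop := ∃ i, f i = c

noncomputable def hit {q b : ℕ} (f : Fin q → Fin b) (c : Fin b) : ℝ :=
  open Classical in if Hits f c then 1 else 0

lemma card_avoid {q b : ℕ} (S : Finset (Fin b)) [DecidablePred (fun f : Fin q → Fin b => ∀ i, f i ∉ S)] :
    ((Finset.univ.filter (fun f : Fin q → Fin b => ∀ i, f i ∉ S)).card) = (b - S.card) ^ q := by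
  classical
  have h : (Finset.univ.filter (fun f : Fin q → Fin b => ∀ i, f i ∉ S)) =
      Fintype.piFinset (fun _ : Fin q => Sᶜ) := by
    ext f; simp [Fintype.mem_piFinset]
  rw [h, Fintype.card_piFinset_const, Finset.card_compl, Fintype.card_fin]

lemma sum_one_sub_hit {q b : ℕ} (c : Fin b) :
    ∑ f : Fin q → Fin b, (1 - hit f c) = ((b : ℝ) - 1) ^ q := by
  classical
  have hb : 1 ≤ b := Nat.one_le_of_lt (Fin.pos c)
  have h1 : ∀ f : Fin q → Fin b, (1 - hit f c) = if (∀ i, f i ∉ ({c} : Finset (Fin b))) then (1 : ℝ) else 0 := by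
    intro f
    unfold hit Hits
    by_cases h : ∃ i, f i = c
    · have h2 : ¬ (∀ i, f i ∉ ({c} : Finset (Fin b))) := by
        simpa using h
      rw [if_pos h, if_neg h2]; ring
    · have h2 : (∀ i, f i ∉ ({c} : Finset (Fin b))) := by
        simpa using h
      rw [if_neg h, if_pos h2]; ring
  simp only [h1]
  rw [Finset.sum_boole, card_avoid]
  simp only [Finset.card_singleton]
  push_cast [Nat.cast_sub hb]
  ring

lemma sum_one_sub_hit_mul {q b : ℕ} (c c' : Fin b) (hc : c ≠ c') :
    ∑ f : Fin q → Fin b, (1 - hit f c) * (1 - hit f c') = ((b : ℝ) - 2) ^ q := by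
  classical
  have hb : 2 ≤ b := by
    have h1 := c.2; have h2 := c'.2
    have h3 : (c : ℕ) ≠ c' := fun h => hc (Fin.ext h)
    omega
  have h1 : ∀ f : Fin q → Fin b, (1 - hit f c) * (1 - hit f c') =
      if (∀ i, f i ∉ ({c, c'} : Finset (Fin b))) then (1 : ℝ) else 0 := by
    intro f
    unfold hit Hits
    by_cases h : ∃ i, f i = c
    · have h2 : ¬ (∀ i, f i ∉ ({c, c'} : Finset (Fin b))) := by
        intro h3
        obtain ⟨i, hi⟩ := h
        exact h3 i (by simp [hi])
      rw [if_pos h, if_neg h2]; ring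
    · by_cases h' : ∃ i, f i = c'
      · have h2 : ¬ (∀ i, f i ∉ ({c, c'} : Finset (Fin b))) := by
          intro h3
          obtain ⟨i, hi⟩ := h'
          exact h3 i (by simp [hi])
        rw [if_pos h', if_neg h2]; ring
      · have h2 : (∀ i, f i ∉ ({c, c'} : Finset (Fin b))) := by
          intro i hi
          simp only [Finset.mem_insert, Finset.mem_singleton] at hi
          rcases hi with hi | hi
          · exact h ⟨i, hi⟩
          · exact h' ⟨i, hi⟩
        rw [if_neg h, if_neg h', if_pos h2]; ring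
  simp only [h1]
  rw [Finset.sum_boole, card_avoid]
  have h3 : ({c, c'} : Finset (Fin b)).card = 2 := Finset.card_pair hc
  rw [h3]
  push_cast [Nat.cast_sub hb]
  ring

lemma card_fun_real {q b : ℕ} : ((Fintype.card (Fin q → Fin b) : ℕ) : ℝ) = (b : ℝ) ^ q := by
  simp

lemma sum_hit {q b : ℕ} (c : Fin b) :
    ∑ f : Fin q → Fin b, hit f c = (b : ℝ) ^ q - ((b : ℝ) - 1) ^ q := by
  have h := sum_one_sub_hit (q := q) c
  rw [Finset.sum_sub_distrib, Finset.sum_const, Finset.card_univ, nsmul_eq_mul, mul_one,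
    card_fun_real] at h
  linarith

lemma sum_hit_mul {q b : ℕ} (c c' : Fin b) (hc : c ≠ c') :
    ∑ f : Fin q → Fin b, hit f c * hit f c' =
      (b : ℝ) ^ q - 2 * ((b : ℝ) - 1) ^ q + ((b : ℝ) - 2) ^ q := by
  have h0 := sum_one_sub_hit_mul (q := q) c c' hc
  have h1 := sum_one_sub_hit (q := q) c
  have h2 := sum_one_sub_hit (q := q) c'
  have h3 : ∀ f : Fin q → Fin b, hit f c * hit f c' =
      (1 - hit f c) * (1 - hit f c') - (1 - hit f c) - (1 - hit f c') + 1 := by
    intro f; ring
  simp only [h3]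
  rw [Finset.sum_add_distrib, Finset.sum_sub_distrib, Finset.sum_sub_distrib, h0, h1, h2,
    Finset.sum_const, Finset.card_univ, nsmul_eq_mul, mul_one, card_fun_real]
  ring

lemma hit_sq {q b : ℕ} (f : Fin q → Fin b) (c : Fin b) : hit f c * hit f c = hit f c := by
  unfold hit; split_ifs <;> simp

lemma hit_nonneg {q b : ℕ} (f : Fin q → Fin b) (c : Fin b) : 0 ≤ hit f c := by
  unfold hit; split_ifs <;> simp

/-- the negative correlation inequality -/
lemma pair_ineq {q b : ℕ} (hb : 2 ≤ b) :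
    ((b : ℝ) ^ q - 2 * ((b : ℝ) - 1) ^ q + ((b : ℝ) - 2) ^ q) * (b : ℝ) ^ q ≤
      ((b : ℝ) ^ q - ((b : ℝ) - 1) ^ q) ^ 2 := by
  have hb' : (2 : ℝ) ≤ b := by exact_mod_cast hb
  have h1 : (((b : ℝ) - 2) * b) ^ q ≤ (((b : ℝ) - 1) ^ 2) ^ q := by
    apply pow_le_pow_left₀ (by nlinarith)
    nlinarith
  rw [mul_pow] at h1
  have h2 : (((b : ℝ) - 1) ^ 2) ^ q = (((b : ℝ) - 1) ^ q) ^ 2 := by
    rw [← pow_mul, ← pow_mul, mul_comm]
  rw [h2] at h1
  nlinarith

/-- Second moment bound. `T` target vectors `c a : P → Fin b` with pairwise different entries; the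
probability that no target vector is completely hit is at most `1 / (T p^|P|)`. -/
lemma second_moment {P : Type*} [Fintype P] [DecidableEq P] {T q b : ℕ} (hb : 2 ≤ b) (hT : 1 ≤ T)
    (hq : 1 ≤ q) (c : Fin T → P → Fin b) (hc : ∀ a a' p, a ≠ a' → c a p ≠ c a' p) :
    pr (fun f : P → Fin q → Fin b => ∀ a, ¬ ∀ p, Hits (f p) (c a p)) ≤
      1 / (T * (1 - (1 - 1 / (b : ℝ)) ^ q) ^ Fintype.card P) := by
  classical
  set M := Fintype.card P
  set K : ℝ := (b : ℝ) ^ q
  set S1 : ℝ := (b : ℝ) ^ q - ((b : ℝ) - 1) ^ q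
  set S2 : ℝ := (b : ℝ) ^ q - 2 * ((b : ℝ) - 1) ^ q + ((b : ℝ) - 2) ^ q
  have hb0 : (0 : ℝ) < b := by positivity
  have hb2 : (2 : ℝ) ≤ b := by exact_mod_cast hb
  have hK : 0 < K := by positivity
  have hS1 : 0 < S1 := by
    have : ((b : ℝ) - 1) ^ q < (b : ℝ) ^ q :=
      pow_lt_pow_left₀ (by linarith) (by linarith) (by omega)
    simp only [S1]; linarith
  have hS1K : S1 / K = 1 - (1 - 1 / (b : ℝ)) ^ q := by
    simp only [S1, K]
    rw [sub_div, div_self (by positivity), ← div_pow, sub_div, div_self (by positivity)]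
  have hS2 : S2 * K ≤ S1 ^ 2 := pair_ineq hb
  let N : (P → Fin q → Fin b) → ℝ := fun f => ∑ a, ∏ p, hit (f p) (c a p)
  have hsumN : ∑ f, N f = T * S1 ^ M := by
    simp only [N]
    rw [Finset.sum_comm]
    have : ∀ a : Fin T, ∑ f : P → Fin q → Fin b, ∏ p, hit (f p) (c a p) = S1 ^ M := by
      intro a
      rw [← Fintype.prod_sum (fun (p : P) (g : Fin q → Fin b) => hit g (c a p))]
      simp only [sum_hit]
      rw [Finset.prod_const, Finset.card_univ]
    simp only [this]
    simp
  have hsumN2 : ∑ f, N f ^ 2 ≤ T * S1 ^ M + T ^ 2 * (S1 ^ 2 / K) ^ M := by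
    have h1 : ∀ f, N f ^ 2 = ∑ a, ∑ a', ∏ p, (hit (f p) (c a p) * hit (f p) (c a' p)) := by
      intro f
      simp only [N]
      rw [sq, Finset.sum_mul_sum]
      simp only [Finset.prod_mul_distrib]
    simp only [h1]
    rw [Finset.sum_comm]
    have h2 : ∀ a : Fin T, ∑ f : P → Fin q → Fin b, ∑ a' : Fin T,
        ∏ p, (hit (f p) (c a p) * hit (f p) (c a' p)) ≤ S1 ^ M + T * (S1 ^ 2 / K) ^ M := by
      intro a
      rw [Finset.sum_comm]
      have h3 : ∀ a' : Fin T, ∑ f : P → Fin q → Fin b,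
          ∏ p, (hit (f p) (c a p) * hit (f p) (c a' p)) ≤
          (if a' = a then S1 ^ M else 0) + (S1 ^ 2 / K) ^ M := by
        intro a'
        rw [← Fintype.prod_sum (fun (p : P) (g : Fin q → Fin b) => hit g (c a p) * hit g (c a' p))]
        by_cases haa : a' = a
        · subst haa
          simp only [hit_sq, sum_hit, if_true]
          rw [Finset.prod_const, Finset.card_univ]
          have : 0 ≤ (S1 ^ 2 / K) ^ M := by positivity
          simp only [S1, M] at this ⊢
          linarith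
        · have h4 : ∀ p, ∑ g : Fin q → Fin b, hit g (c a p) * hit g (c a' p) = S2 := by
            intro p
            rw [sum_hit_mul _ _ (hc a a' p (fun h => haa h.symm))]
          simp only [h4, haa, if_false, zero_add]
          rw [Finset.prod_const, Finset.card_univ]
          have h5 : 0 ≤ S2 := by
            by_cases hP : Nonempty P
            · obtain ⟨p⟩ := hP
              rw [← h4 p]
              exact Finset.sum_nonneg fun g _ => mul_nonneg (hit_nonneg _ _) (hit_nonneg _ _)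
            · -- irrelevant; still true by picking two different points
              have hlt : (0 : ℕ) < b := by omega
              have h6 := sum_hit_mul (q := q) (⟨0, hlt⟩ : Fin b) (⟨1, by omega⟩ : Fin b)
                (by simp [Fin.ext_iff])
              simp only [S2]
              rw [← h6]
              exact Finset.sum_nonneg fun g _ => mul_nonneg (hit_nonneg _ _) (hit_nonneg _ _)
          apply pow_le_pow_left₀ h5
          rw [le_div_iff₀ hK]
          exact hS2
      calc ∑ a' : Fin T, ∑ f : P → Fin q → Fin b, ∏ p, (hit (f p) (c a p) * hit (f p) (c a' p))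
          ≤ ∑ a' : Fin T, ((if a' = a then S1 ^ M else 0) + (S1 ^ 2 / K) ^ M) :=
            Finset.sum_le_sum fun a' _ => h3 a'
        _ = S1 ^ M + T * (S1 ^ 2 / K) ^ M := by
            rw [Finset.sum_add_distrib]
            simp
    calc ∑ a : Fin T, ∑ f : P → Fin q → Fin b, ∑ a' : Fin T,
        ∏ p, (hit (f p) (c a p) * hit (f p) (c a' p))
        ≤ ∑ a : Fin T, (S1 ^ M + T * (S1 ^ 2 / K) ^ M) := Finset.sum_le_sum fun a _ => h2 a
      _ = T * S1 ^ M + T ^ 2 * (S1 ^ 2 / K) ^ M := by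
          simp; ring
  -- Chebyshev
  have hcard : ((Fintype.card (P → Fin q → Fin b) : ℕ) : ℝ) = K ^ M := by
    rw [Fintype.card_fun]; push_cast; rw [card_fun_real]
  set μ : ℝ := T * (S1 / K) ^ M
  have hT0 : (0 : ℝ) < T := by exact_mod_cast hT
  have hμ : 0 < μ := by positivity
  have hvar : ∑ f, (N f - μ) ^ 2 ≤ μ * K ^ M := by
    have h1 : ∑ f, (N f - μ) ^ 2 = ∑ f, N f ^ 2 - 2 * μ * ∑ f, N f + K ^ M * μ ^ 2 := by
      have : ∀ f, (N f - μ) ^ 2 = N f ^ 2 - 2 * μ * N f + μ ^ 2 := fun f => by ring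
      simp only [this]
      rw [Finset.sum_add_distrib, Finset.sum_sub_distrib, ← Finset.mul_sum, Finset.sum_const,
        Finset.card_univ, nsmul_eq_mul, hcard]
    rw [h1, hsumN]
    have h2 : (T : ℝ) * S1 ^ M = μ * K ^ M := by
      simp only [μ]
      rw [div_pow]
      field_simp
    have h3 : (T : ℝ) ^ 2 * (S1 ^ 2 / K) ^ M = μ ^ 2 * K ^ M := by
      simp only [μ]
      rw [div_pow, div_pow, mul_pow, div_pow]
      field_simp
      rw [← pow_mul, ← pow_mul, mul_comm]
    rw [h2] at hsumN2 ⊢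
    rw [h3] at hsumN2
    nlinarith
  rw [pr_eq, hcard, div_le_div_iff₀ (by positivity) (by rw [← hS1K]; positivity), ← hS1K]
  change _ * μ ≤ 1 * K ^ M
  have hcheb : ((Finset.univ.filter (fun f : P → Fin q → Fin b =>
      ∀ a, ¬ ∀ p, Hits (f p) (c a p))).card : ℝ) * μ ^ 2 ≤ ∑ f, (N f - μ) ^ 2 := by
    rw [← nsmul_eq_mul, ← Finset.sum_const]
    have h7 := Finset.sum_le_sum_of_subset_of_nonneg (f := fun f => (N f - μ) ^ 2)
      (Finset.subset_univ (Finset.univ.filter (fun f : P → Fin q → Fin b =>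
        ∀ a, ¬ ∀ p, Hits (f p) (c a p)))) (fun f _ _ => sq_nonneg _)
    refine le_trans (Finset.sum_le_sum fun f hf => ?_) h7
    simp only [Finset.mem_filter, Finset.mem_univ, true_and] at hf
    have hN0 : N f = 0 := by
      simp only [N]
      refine Finset.sum_eq_zero fun a _ => ?_
      have := hf a
      push Not at this
      obtain ⟨p, hp⟩ := this
      apply Finset.prod_eq_zero (Finset.mem_univ p)
      unfold hit
      rw [if_neg hp]
    rw [hN0]; simp
  have h5 := hcheb.trans hvar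
  have h6 : ((Finset.univ.filter (fun f : P → Fin q → Fin b =>
      ∀ a, ¬ ∀ p, Hits (f p) (c a p))).card : ℝ) * μ * μ ≤ K ^ M * μ := by nlinarith
  rw [one_mul]
  exact le_of_mul_le_mul_right h6 hμ

end Pool.Agent.H512R3.Stack
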