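import Mathlib
import Pool.Agent.H512R3.StackProb
import Pool.Agent.H512R3.StackMoment
import Pool.Agent.H512R3.StackDefs

set_option autoImplicit false
open Finset

namespace Pool.Agent.H512R3.Stack

lemma pr_le_one {X : Type*} [Fintype X] (P : X → Prop) : pr P ≤ 1 := by
  classical
  rw [pr_eq]
  apply div_le_one_of_le₀ _ (by positivity)
  exact_mod_cast Finset.card_le_univ _

section eqs
variable {X A : Type*} [Fintype X] [Fintype A] [DecidableEq X] [DecidableEq A] [Nonempty A]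

lemma pr_eq1 (x y : X) (h : x ≠ y) :
    pr (fun f : X → A => f x = f y) ≤ 1 / (Fintype.card A : ℝ) := by
  have h1 := pr_upd (A := A) x (fun _ => True) (fun f => f y) (fun _ _ _ => trivial)
    (fun f a => by simp [Function.update_of_ne h.symm])
  refine (pr_mono (fun f hf => ⟨trivial, hf⟩)).trans (h1.trans ?_)
  exact div_le_div_of_nonneg_right (pr_le_one _) (by positivity)

lemma pr_eq3 (x1 y1 x2 y2 x3 y3 : X) (h1 : y1 ≠ x1) (h21 : x1 ≠ x2) (h22 : y1 ≠ x2)
    (h23 : y2 ≠ x2) (h31 : x1 ≠ x3) (h32 : y1 ≠ x3) (h33 : x2 ≠ x3) (h34 : y2 ≠ x3)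
    (h35 : y3 ≠ x3) :
    pr (fun f : X → A => (f x1 = f y1 ∧ f x2 = f y2) ∧ f x3 = f y3) ≤
      1 / (Fintype.card A : ℝ) ^ 3 := by
  have hA : (0 : ℝ) < Fintype.card A := by exact_mod_cast Fintype.card_pos
  have e1 := pr_eq1 (A := A) x1 y1 h1.symm
  have e2 := pr_upd (A := A) x2 (fun f => f x1 = f y1) (fun f => f y2)
    (fun f a hf => by simpa [Function.update_of_ne h21, Function.update_of_ne h22] using hf)
    (fun f a => by simp [Function.update_of_ne h23])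
  have e3 := pr_upd (A := A) x3 (fun f => f x1 = f y1 ∧ f x2 = f y2) (fun f => f y3)
    (fun f a hf => by
      simpa [Function.update_of_ne h31, Function.update_of_ne h32, Function.update_of_ne h33,
        Function.update_of_ne h34] using hf)
    (fun f a => by simp [Function.update_of_ne h35])
  refine e3.trans ?_
  rw [div_le_iff₀ hA]
  refine e2.trans ?_
  rw [div_le_iff₀ hA]
  refine e1.trans (le_of_eq ?_)
  field_simp

end eqs

/-- The good event, in terms of the positions only. -/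
def Good {n ζ b m q T : ℕ} (row : Fin T ⊕ ((Fin ζ × Fin m) × Fin q) → Fin n)
    (s : Fin n → Fin ζ → Fin b) : Prop :=
  ∃ (a : Fin T) (g : Fin ζ × Fin m → Fin q),
    (∀ p, s (row (Sum.inr (p, g p))) p.1 = s (row (Sum.inl a)) p.1) ∧
    ∀ p p', p ≠ p' → ∀ j, j ≠ p.1 → j ≠ p'.1 →
      s (row (Sum.inr (p, g p))) j ≠ s (row (Sum.inr (p', g p'))) j

lemma prob_roots {n ζ b m q T : ℕ} [NeZero b] (row : Fin T ⊕ ((Fin ζ × Fin m) × Fin q) → Fin n)
    (hrow : Function.Injective row) :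
    pr (fun s : Fin n → Fin ζ → Fin b => ∃ z : Fin T × Fin T × Fin ζ, z.1 ≠ z.2.1 ∧
      s (row (Sum.inl z.1)) z.2.2 = s (row (Sum.inl z.2.1)) z.2.2) ≤ (T : ℝ) ^ 2 * ζ / b := by
  classical
  refine (pr_exists_le _).trans ?_
  have h1 : ∀ z : Fin T × Fin T × Fin ζ, pr (fun s : Fin n → Fin ζ → Fin b => z.1 ≠ z.2.1 ∧
      s (row (Sum.inl z.1)) z.2.2 = s (row (Sum.inl z.2.1)) z.2.2) ≤ 1 / b := by
    intro z
    by_cases hz : z.1 = z.2.1
    · have : pr (fun s : Fin n → Fin ζ → Fin b => z.1 ≠ z.2.1 ∧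
          s (row (Sum.inl z.1)) z.2.2 = s (row (Sum.inl z.2.1)) z.2.2) ≤
          pr (fun _ : Fin n → Fin ζ → Fin b => False) := pr_mono (fun s hs => hs.1 hz)
      refine this.trans ?_
      rw [pr_eq]; simp
    · have h2 := pr_equiv (Equiv.curry (Fin n) (Fin ζ) (Fin b)) (fun s => z.1 ≠ z.2.1 ∧
          s (row (Sum.inl z.1)) z.2.2 = s (row (Sum.inl z.2.1)) z.2.2)
      rw [← h2]
      have h3 := pr_eq1 (A := Fin b) ((row (Sum.inl z.1), z.2.2) : Fin n × Fin ζ)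
        (row (Sum.inl z.2.1), z.2.2) (by
          intro h
          apply hz
          have := hrow (Prod.ext_iff.1 h).1
          simpa using this)
      rw [Fintype.card_fin] at h3
      refine le_trans (pr_mono fun f hf => ?_) h3
      exact hf.2
  refine (Finset.sum_le_sum fun z _ => h1 z).trans (le_of_eq ?_)
  rw [Finset.sum_const, Finset.card_univ]
  simp only [Fintype.card_prod, Fintype.card_fin, nsmul_eq_mul]
  push_cast
  ring

lemma prob_coll {n ζ b m q T : ℕ} [NeZero b] (row : Fin T ⊕ ((Fin ζ × Fin m) × Fin q) → Fin n)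
    (hrow : Function.Injective row) :
    pr (fun s : Fin n → Fin ζ → Fin b =>
      ∃ z : Fin T × ((Fin ζ × Fin m) × Fin q) × ((Fin ζ × Fin m) × Fin q) × Fin ζ,
      z.2.1 ≠ z.2.2.1 ∧ z.2.2.2 ≠ z.2.1.1.1 ∧ z.2.2.2 ≠ z.2.2.1.1.1 ∧
      (s (row (Sum.inr z.2.1)) z.2.1.1.1 = s (row (Sum.inl z.1)) z.2.1.1.1 ∧
       s (row (Sum.inr z.2.2.1)) z.2.2.1.1.1 = s (row (Sum.inl z.1)) z.2.2.1.1.1) ∧
       s (row (Sum.inr z.2.1)) z.2.2.2 = s (row (Sum.inr z.2.2.1)) z.2.2.2) ≤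
      (T : ℝ) * (ζ * m * q) ^ 2 * ζ / b ^ 3 := by
  classical
  refine (pr_exists_le _).trans ?_
  have h1 : ∀ z : Fin T × ((Fin ζ × Fin m) × Fin q) × ((Fin ζ × Fin m) × Fin q) × Fin ζ,
      pr (fun s : Fin n → Fin ζ → Fin b => 
      z.2.1 ≠ z.2.2.1 ∧ z.2.2.2 ≠ z.2.1.1.1 ∧ z.2.2.2 ≠ z.2.2.1.1.1 ∧
      (s (row (Sum.inr z.2.1)) z.2.1.1.1 = s (row (Sum.inl z.1)) z.2.1.1.1 ∧
       s (row (Sum.inr z.2.2.1)) z.2.2.1.1.1 = s (row (Sum.inl z.1)) z.2.2.1.1.1) ∧
       s (row (Sum.inr z.2.1)) z.2.2.2 = s (row (Sum.inr z.2.2.1)) z.2.2.2) ≤ 1 / b ^ 3 := by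
    rintro ⟨a, u, v, j⟩
    simp only
    by_cases hz : u ≠ v ∧ j ≠ u.1.1 ∧ j ≠ v.1.1
    · obtain ⟨huv, hju, hjv⟩ := hz
      have h2 := pr_equiv (Equiv.curry (Fin n) (Fin ζ) (Fin b)) (fun s => u ≠ v ∧ j ≠ u.1.1 ∧
          j ≠ v.1.1 ∧ (s (row (Sum.inr u)) u.1.1 = s (row (Sum.inl a)) u.1.1 ∧
          s (row (Sum.inr v)) v.1.1 = s (row (Sum.inl a)) v.1.1) ∧
          s (row (Sum.inr u)) j = s (row (Sum.inr v)) j)
      rw [← h2]
      have hrr : ∀ w, row (Sum.inl a) ≠ row (Sum.inr w) := by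
        intro w h; have := hrow h; simp at this
      have hruv : row (Sum.inr u) ≠ row (Sum.inr v) := by
        intro h; have := hrow h; simp at this; exact huv this
      have h3 := pr_eq3 (A := Fin b) ((row (Sum.inr u), u.1.1) : Fin n × Fin ζ)
        (row (Sum.inl a), u.1.1) (row (Sum.inr v), v.1.1) (row (Sum.inl a), v.1.1)
        (row (Sum.inr u), j) (row (Sum.inr v), j)
        (fun h => hrr u (Prod.ext_iff.1 h).1)
        (fun h => hruv (Prod.ext_iff.1 h).1)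
        (fun h => hrr v (Prod.ext_iff.1 h).1)
        (fun h => hrr v (Prod.ext_iff.1 h).1)
        (fun h => hju (Prod.ext_iff.1 h).2.symm)
        (fun h => hrr u (Prod.ext_iff.1 h).1)
        (fun h => hruv (Prod.ext_iff.1 h).1.symm)
        (fun h => hrr u (Prod.ext_iff.1 h).1)
        (fun h => hruv (Prod.ext_iff.1 h).1.symm)
      rw [Fintype.card_fin] at h3
      refine le_trans (pr_mono fun f hf => ?_) h3
      exact hf.2.2.2
    · refine le_trans (pr_mono (Q := fun _ => False) fun f hf => hz ⟨hf.1, hf.2.1, hf.2.2.1⟩) ?_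
      rw [pr_eq]; simp
  refine (Finset.sum_le_sum fun z _ => h1 z).trans (le_of_eq ?_)
  rw [Finset.sum_const, Finset.card_univ]
  simp only [Fintype.card_prod, Fintype.card_fin, nsmul_eq_mul]
  push_cast
  ring

lemma prob_nogood {n ζ b m q T : ℕ} (hb : 2 ≤ b) (hT : 1 ≤ T) (hq : 1 ≤ q)
    (row : Fin T ⊕ ((Fin ζ × Fin m) × Fin q) → Fin n)
    (hrow : Function.Injective row) :
    pr (fun s : Fin n → Fin ζ → Fin b =>
      (∀ a a' j, a ≠ a' → s (row (Sum.inl a)) j ≠ s (row (Sum.inl a')) j) ∧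
      ∀ a, ¬ ∀ p : Fin ζ × Fin m, ∃ i, s (row (Sum.inr (p, i))) p.1 = s (row (Sum.inl a)) p.1) ≤
      1 / (T * (1 - (1 - 1 / (b : ℝ)) ^ q) ^ (ζ * m)) := by
  classical
  have : NeZero b := ⟨by omega⟩
  let ι : (Fin T × Fin ζ) ⊕ ((Fin ζ × Fin m) × Fin q) → Fin n × Fin ζ := fun w =>
    match w with
    | Sum.inl aj => (row (Sum.inl aj.1), aj.2)
    | Sum.inr pi => (row (Sum.inr pi), pi.1.1)
  have hι : Function.Injective ι := by
    rintro (w | w) (w' | w') h
    · simp only [ι, Prod.mk.injEq] at h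
      have h1 := hrow h.1
      simp only [Sum.inl.injEq] at h1
      exact congrArg _ (Prod.ext h1 h.2)
    · simp only [ι, Prod.mk.injEq] at h
      have h1 := hrow h.1
      simp at h1
    · simp only [ι, Prod.mk.injEq] at h
      have h1 := hrow h.1
      simp at h1
    · simp only [ι, Prod.mk.injEq] at h
      have h1 := hrow h.1
      simp only [Sum.inr.injEq] at h1
      exact congrArg _ h1
  -- the event in terms of the restricted coordinates
  let Ψ : ((Fin T × Fin ζ) ⊕ ((Fin ζ × Fin m) × Fin q) → Fin b) → Prop := fun h =>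
    (∀ a a' j, a ≠ a' → h (Sum.inl (a, j)) ≠ h (Sum.inl (a', j))) ∧
      ∀ a, ¬ ∀ p : Fin ζ × Fin m, ∃ i, h (Sum.inr (p, i)) = h (Sum.inl (a, p.1))
  have e1 : pr (fun s : Fin n → Fin ζ → Fin b =>
      (∀ a a' j, a ≠ a' → s (row (Sum.inl a)) j ≠ s (row (Sum.inl a')) j) ∧
      ∀ a, ¬ ∀ p : Fin ζ × Fin m, ∃ i, s (row (Sum.inr (p, i))) p.1 = s (row (Sum.inl a)) p.1) =
      pr Ψ := by
    rw [← pr_comp_inj ι hι Ψ, ← pr_equiv (Equiv.curry (Fin n) (Fin ζ) (Fin b))]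
    rfl
  rw [e1, ← pr_equiv (Equiv.sumArrowEquivProdArrow (Fin T × Fin ζ) ((Fin ζ × Fin m) × Fin q)
    (Fin b)).symm]
  have hpow : (1 - 1 / (b : ℝ)) ^ q ≤ 1 := by
    have hb' : (2 : ℝ) ≤ b := by exact_mod_cast hb
    have h1 : 1 / (b : ℝ) ≤ 1 := by
      rw [div_le_one (by linarith)]; linarith
    have h2 : 0 ≤ 1 / (b : ℝ) := by positivity
    exact pow_le_one₀ (by linarith) (by linarith)
  refine pr_prod_le _ _ ?_ ?_
  · have : 0 ≤ 1 - (1 - 1 / (b : ℝ)) ^ q := by linarith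
    positivity
  intro c
  by_cases hc : ∀ a a' j, a ≠ a' → c (a, j) ≠ c (a', j)
  · have h2 := second_moment (P := Fin ζ × Fin m) (T := T) (q := q) (b := b) hb hT hq
      (fun a p => c (a, p.1)) (fun a a' p h => hc a a' p.1 h)
    rw [Fintype.card_prod, Fintype.card_fin, Fintype.card_fin] at h2
    refine le_trans (le_of_eq ?_) h2
    rw [← pr_equiv (Equiv.curry (Fin ζ × Fin m) (Fin q) (Fin b))]
    congr 1
    ext f
    simp only [Ψ, Equiv.sumArrowEquivProdArrow, Equiv.coe_fn_symm_mk, Sum.elim_inl, Sum.elim_inr]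
    constructor
    · rintro ⟨_, h⟩ a hh
      exact h a fun p => hh p
    · intro h
      exact ⟨hc, fun a hh => h a fun p => hh p⟩
  · refine le_trans (pr_mono (Q := fun _ => False) fun f hf => hc ?_) ?_
    · intro a a' j haa
      exact hf.1 a a' j haa
    · rw [pr_eq]
      have : 0 ≤ 1 - (1 - 1 / (b : ℝ)) ^ q := by linarith
      simp only [Finset.filter_false, Finset.card_empty, Nat.cast_zero, zero_div]
      positivity

lemma prob_main {n ζ b m q T : ℕ} (hb : 2 ≤ b) (hT : 1 ≤ T) (hq : 1 ≤ q)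
    (row : Fin T ⊕ ((Fin ζ × Fin m) × Fin q) → Fin n)
    (hrow : Function.Injective row) :
    pr (fun s : Fin n → Fin ζ → Fin b => ¬ Good row s) ≤
      (T : ℝ) ^ 2 * ζ / b + 1 / (T * (1 - (1 - 1 / (b : ℝ)) ^ q) ^ (ζ * m)) +
        (T : ℝ) * (ζ * m * q) ^ 2 * ζ / b ^ 3 := by
  classical
  have : NeZero b := ⟨by omega⟩
  refine le_trans ?_ (add_le_add (add_le_add (prob_roots (b := b) row hrow)
    (prob_nogood hb hT hq row hrow)) (prob_coll (b := b) row hrow))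
  refine le_trans ?_ (add_le_add_left (pr_or_le _ _) _)
  refine le_trans ?_ (pr_or_le _ _)
  refine pr_mono fun s hs => ?_
  by_contra hcon
  push Not at hcon
  obtain ⟨⟨h1, h2⟩, h3⟩ := hcon
  have h1' : ∀ a a' j, a ≠ a' → s (row (Sum.inl a)) j ≠ s (row (Sum.inl a')) j :=
    fun a a' j haa => h1 (a, a', j) haa
  obtain ⟨a, ha⟩ := h2 h1'
  choose g hg using ha
  apply hs
  refine ⟨a, g, hg, ?_⟩
  intro p p' hpp j hj hj'
  exact h3 (a, (p, g p), (p', g p'), j) (by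
    intro h; exact hpp (Prod.ext_iff.1 h).1) hj hj' ⟨hg p, hg p'⟩

end Pool.Agent.H512R3.Stack
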